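import Pool.Agent.L7h9.SU.Asy2
set_option autoImplicit false

/-!
The asymptotic behaviour of the regulator integrals of `{u_1, ..., u_n, g_0, ..., g_s}` when the
logarithms and the windings of the `g_i` in the last directions are close to given numbers.
-/

namespace Pool.Agent.L7h9.TS

open MeasureTheory Set

open Pool.Agent.TH826.MK

open Pool.Agent.N65.TL

open Pool.Agent.L7h9.SU

variable {n s k : ℕ}

/-- the matrix of logarithms and winding numbers -/
noncomputable def zm (c : Fin (s + 1) → ℝ) (w : Fin s → Fin (s + 1) → ℝ) :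
    Matrix (Fin (s + 1)) (Fin (s + 1)) ℝ :=
  Matrix.of fun a => Fin.cons (c a) fun l => w l a

/-- the determinant of the orders of the `z_i` -/
theorem det_zcG (c : Fin (s + 1) → ℝ) (w : Fin s → Fin (s + 1) → ℝ) :
    (Matrix.of fun a => (Fin.cons ((c a : ℝ) : ℂ)
      fun l => 2 * Real.pi * Complex.I * ((w l a : ℝ) : ℂ) : Fin (s + 1) → ℂ)).det =
      (2 * Real.pi * Complex.I) ^ s * ((zm c w).det : ℂ) := by
  have e : (Matrix.of fun a => (Fin.cons ((c a : ℝ) : ℂ)
      fun l => 2 * Real.pi * Complex.I * ((w l a : ℝ) : ℂ) : Fin (s + 1) → ℂ)) =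
      Matrix.of fun a j => (Fin.cons 1 fun _ => 2 * Real.pi * Complex.I :
        Fin (s + 1) → ℂ) j * ((zm c w).map (fun x : ℝ => (x : ℂ))) a j := by
    ext a j
    rw [Matrix.of_apply, Matrix.of_apply, Matrix.map_apply]
    unfold zm
    rw [Matrix.of_apply]
    refine Fin.cases ?_ (fun j => ?_) j
    · simp only [Fin.cons_zero, one_mul]
    · simp only [Fin.cons_succ]
  rw [e, Matrix.det_mul_row, Fin.prod_univ_succ]
  simp only [Fin.cons_zero, Fin.cons_succ, one_mul, Finset.prod_const, Finset.card_univ,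
    Fintype.card_fin]
  congr 1
  exact (RingHom.map_det Complex.ofRealHom (zm c w)).symm

theorem asyG (hk : 0 < k) {u : Fin n → (Fin n → ℝ) → ℂ} (hu : ∀ i, Good (u i))
    (hp : ∀ i, Per (u i)) (c : Fin (s + 1) → ℝ) (w : Fin s → Fin (s + 1) → ℝ) {B : ℝ} (hB : 0 ≤ B)
    {ε : ℝ} (hε : 0 < ε) :
    ∃ δ T0 : ℝ, 0 < δ ∧ 0 < T0 ∧ ∀ (Z : Fin (s + 1) → (Fin (n + s) → ℝ) → ℂ) (t : ℝ), T0 ≤ t →
      (∀ j, Good (Z j)) →
      (∀ j θ, |Real.log ‖Z j θ‖ / t - c j| ≤ δ) →
      (∀ j l θ, ‖lw (Z j) (Fin.natAdd n l) θ - 2 * Real.pi * Complex.I *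
        ((w l j : ℝ) : ℂ)‖ ≤ δ) →
      (∀ j i θ, ‖lw (Z j) (Fin.castAdd s i) θ‖ ≤ B) →
      |pairing (d := n + s) (Fin.append (m := n) (n := s + 1)
          (fun (i : Fin n) θ => u i (pul n s k θ)) Z) / t -
        SU.cst n s k * (zm c w).det *
          pairing (d := n) (Fin.append u fun (_ : Fin 1) _ => (2 : ℂ))| ≤ ε := by
  classical
  have hpi := Real.pi_pos
  have hlog2 : 0 < Real.log 2 := Real.log_pos one_lt_two
  -- bounds
  choose Cu hCu0 hCul hCuw using fun i => Good.bdd (hu i) (hp i)
  set Cs : ℝ := ∑ i, Cu i with hCs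
  have hCs0 : 0 ≤ Cs := Finset.sum_nonneg fun i _ => hCu0 i
  have hCule : ∀ i, Cu i ≤ Cs := fun i =>
    Finset.single_le_sum (f := Cu) (fun i _ => hCu0 i) (Finset.mem_univ i)
  set R1 : ℝ := ∑ a, |c a| with hR1
  set R2 : ℝ := ∑ a, ∑ l, 2 * Real.pi * |w l a| with hR2
  have hR10 : 0 ≤ R1 := Finset.sum_nonneg fun a _ => abs_nonneg _
  have hR20 : 0 ≤ R2 := Finset.sum_nonneg fun a _ => Finset.sum_nonneg fun l _ => by positivity
  set R : ℝ := 2 * k * Cs + R1 + R2 + 2 * B with hR
  have hkR : (0 : ℝ) ≤ k := Nat.cast_nonneg k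
  have hkC : 0 ≤ 2 * k * Cs := by positivity
  obtain ⟨δ, hδ, hdet⟩ := det_unif (m := n + s + 1) R hε
  refine ⟨δ / 2, Cs / δ + 1, by linarith, by positivity, fun Z t ht hZ h1 h2 h3 => ?_⟩
  have hC1 : 0 ≤ Cs / δ := by positivity
  have ht0 : 0 < t := by linarith
  have hCt : Cs / t ≤ δ := by
    rw [div_le_iff₀ ht0]
    have h4 : Cs / δ ≤ t := by linarith
    rw [div_le_iff₀ hδ] at h4
    linarith
  set U : Fin n → (Fin (n + s) → ℝ) → ℂ := fun i θ => u i (pul n s k θ) with hU
  have hUg : ∀ i, Good (U i) := fun i => good_pul (hu i)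
  set g : Fin (n + s + 1) → (Fin (n + s) → ℝ) → ℂ :=
    Fin.append (m := n) (n := s + 1) U Z with hg
  have hgi : ∀ i, g (rE n s (Sum.inl i)) = U i := fun i => Fin.append_left U Z i
  have hga : ∀ a, g (rE n s (Sum.inr a)) = Z a := fun a => Fin.append_right U Z a
  have hgg : ∀ l, Good (g l) := by
    intro l
    obtain ⟨x, rfl⟩ := (rE n s).surjective l
    rcases x with i | a
    · rw [hgi]
      exact hUg i
    · rw [hga]
      exact hZ a
  set G : Fin (n + 1) → (Fin n → ℝ) → ℂ := Fin.append u (fun (_ : Fin 1) _ => (2 : ℂ)) with hG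
  have hGi : ∀ i, G (rE n 0 (Sum.inl i)) = u i := fun i => Fin.append_left _ _ i
  have hGa : ∀ a, G (rE n 0 (Sum.inr a)) = fun _ => (2 : ℂ) := fun a => Fin.append_right _ _ a
  have hGg : ∀ l, Good (G l) := by
    intro l
    obtain ⟨x, rfl⟩ := (rE n 0).surjective l
    rcases x with i | a
    · rw [hGi]
      exact hu i
    · rw [hGa]
      exact good_const two_ne_zero
  have hGp : ∀ l, Per (G l) := by
    intro l
    obtain ⟨x, rfl⟩ := (rE n 0).surjective l
    rcases x with i | a
    · rw [hGi]
      exact hp i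
    · rw [hGa]
      intro θ i
      rfl
  -- the point of the base
  set yb : (Fin (n + s + 1) → ℝ) → Fin (n + 1) → ℝ := fun y =>
    Fin.cons (y 0) (pul n s k (tl (n + s) y)) with hyb
  set Mb : (Fin (n + s + 1) → ℝ) → Matrix (Fin n) (Fin n) ℂ := fun y =>
    Matrix.of fun i j => grow (u i) (yb y) j.succ with hMb
  -- the integrand on the base
  have hbase : ∀ y, integrand G (yb y) =
      sg n 0 * Real.log 2 * ((-Complex.I) ^ n * (Mb y).det).re := by
    intro y
    unfold integrand
    have hQ := det_blk (n := n) (s := 0) (fun l => grow (G l) (yb y)) (M := Mb y)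
      (Z := Matrix.of fun _ _ => ((Real.log 2 : ℝ) : ℂ)) (fun i j => by
        rw [hGi]
        rfl) (fun a b => by
        obtain ⟨b, hb⟩ := b
        have ha : b = 0 := by omega
        subst ha
        rw [hGa]
        show ((Real.log ‖(2 : ℂ)‖ : ℝ) : ℂ) = ((Real.log 2 : ℝ) : ℂ)
        rw [Complex.norm_ofNat]) (Or.inr fun a j => by
        rw [hGa, cE_inl, grow_succ, lw_const]
        simp)
    rw [hQ]
    have hd : (Matrix.of fun (_ _ : Fin (0 + 1)) => ((Real.log 2 : ℝ) : ℂ)).det =
        ((Real.log 2 : ℝ) : ℂ) := Matrix.det_fin_one _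
    rw [hd]
    have e : (-Complex.I) ^ n * ((sg n 0 : ℂ) * ((Mb y).det * ((Real.log 2 : ℝ) : ℂ))) =
        ((sg n 0 * Real.log 2 : ℝ) : ℂ) * ((-Complex.I) ^ n * (Mb y).det) := by
      push_cast
      ring
    rw [e, Complex.re_ofReal_mul]
  -- the matrices
  set N : (Fin (n + s + 1) → ℝ) → Fin (n + s + 1) → Fin (n + s + 1) → ℂ := fun y l =>
    Fin.cons ((Real.log ‖g l (tl (n + s) y)‖ / t : ℝ) : ℂ) fun j => grow (g l) y j.succ with hN
  set N' : (Fin (n + s + 1) → ℝ) → Fin (n + s + 1) → Fin (n + s + 1) → ℂ := fun y l j =>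
    Sum.elim (fun i => Sum.elim (fun j => (k : ℂ) * Mb y i j) (fun _ => 0) ((cE n s).symm j))
      (fun a => Sum.elim (fun i => grow (Z a) y (Fin.castAdd s i).succ)
        (Fin.cons ((c a : ℝ) : ℂ)
          fun l => 2 * Real.pi * Complex.I * ((w l a : ℝ) : ℂ)) ((cE n s).symm j))
      ((rE n s).symm l) with hN'
  have hN'det : ∀ y, (Matrix.of (N' y)).det = (sg n s : ℂ) * (((k : ℂ) ^ n * (Mb y).det) *
      ((2 * Real.pi * Complex.I) ^ s * ((zm c w).det : ℂ))) := by
    intro y
    rw [det_blk (N' y) (M := (k : ℂ) • Mb y) (Z := Matrix.of fun a =>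
      (Fin.cons ((c a : ℝ) : ℂ)
      fun l => 2 * Real.pi * Complex.I * ((w l a : ℝ) : ℂ) : Fin (s + 1) → ℂ))
      (fun i j => by
        simp only [hN', Equiv.symm_apply_apply, Sum.elim_inl]
        rw [Matrix.smul_apply, smul_eq_mul]) (fun a b => by
        simp only [hN', Equiv.symm_apply_apply, Sum.elim_inr]
        rfl) (Or.inl fun i b => by
        simp only [hN', Equiv.symm_apply_apply, Sum.elim_inl, Sum.elim_inr]), det_zcG,
      Matrix.det_smul, Fintype.card_fin]
  have hmain' : ∀ y, ((-Complex.I) ^ (n + s) * (Matrix.of (N' y)).det).re =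
      SU.cst n s k * (zm c w).det * integrand G (yb y) := by
    intro y
    rw [hN'det, hbase]
    have e1 : (-Complex.I) ^ s * (2 * Real.pi * Complex.I) ^ s = (((2 * Real.pi) ^ s : ℝ) : ℂ) := by
      rw [← mul_pow]
      have e : -Complex.I * (2 * Real.pi * Complex.I) = ((2 * Real.pi : ℝ) : ℂ) := by
        push_cast
        linear_combination (-(2 * (Real.pi : ℂ))) * Complex.I_mul_I
      rw [e, ← Complex.ofReal_pow]
    have e : (-Complex.I) ^ (n + s) * ((sg n s : ℂ) * (((k : ℂ) ^ n * (Mb y).det) *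
        ((2 * Real.pi * Complex.I) ^ s * ((zm c w).det : ℂ)))) =
        (((sg n s * (k : ℝ) ^ n * (2 * Real.pi) ^ s * (zm c w).det : ℝ)) : ℂ) *
          ((-Complex.I) ^ n * (Mb y).det) := by
      rw [pow_add]
      push_cast
      push_cast at e1
      linear_combination ((sg n s : ℂ) * (k : ℂ) ^ n * ((zm c w).det : ℂ) *
        ((-Complex.I) ^ n * (Mb y).det)) * e1
    rw [e, Complex.re_ofReal_mul]
    unfold SU.cst
    have h4 := sg_mul_self n 0
    have h5 : (Real.log 2)⁻¹ * Real.log 2 = 1 := inv_mul_cancel₀ hlog2.ne'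
    rw [div_eq_mul_inv]
    generalize ((-Complex.I) ^ n * (Mb y).det).re = X
    generalize (Real.log 2)⁻¹ = li at h5 ⊢
    generalize Real.log 2 = l at h5 ⊢
    generalize (2 * Real.pi) ^ s = p
    generalize (k : ℝ) ^ n = kn
    generalize (zm c w).det = zm
    linear_combination (-(sg n s * kn * p * zm * X * li * l)) * h4 -
      (sg n s * kn * p * zm * X) * h5
  -- closeness
  have hNi : ∀ y i, N y (rE n s (Sum.inl i)) = Fin.cons
      ((Real.log ‖U i (tl (n + s) y)‖ / t : ℝ) : ℂ) fun j => grow (U i) y j.succ := by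
    intro y i
    simp only [hN]
    rw [hgi]
  have hNa : ∀ y a, N y (rE n s (Sum.inr a)) = Fin.cons
      ((Real.log ‖Z a (tl (n + s) y)‖ / t : ℝ) : ℂ) fun j => grow (Z a) y j.succ := by
    intro y a
    simp only [hN]
    rw [hga]
  have hclose : ∀ y ∈ Icc (0 : Fin (n + s + 1) → ℝ) 1, ∀ l j, ‖N y l j - N' y l j‖ ≤ δ := by
    intro y hy l j
    obtain ⟨x, rfl⟩ := (rE n s).surjective l
    obtain ⟨z, rfl⟩ := (cE n s).surjective j
    rcases x with i | a
    · rw [hNi]
      rcases z with j | b
      · simp only [hN', Equiv.symm_apply_apply, Sum.elim_inl]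
        rw [cE_inl, Fin.cons_succ]
        have h4 : grow (U i) y (Fin.castAdd s j).succ = (k : ℂ) * Mb y i j :=
          grow_pul_cast (hu i) j y
        rw [h4, sub_self, norm_zero]
        exact hδ.le
      · simp only [hN', Equiv.symm_apply_apply, Sum.elim_inl, Sum.elim_inr]
        refine Fin.cases ?_ (fun b => ?_) b
        · rw [cE_zero, Fin.cons_zero, sub_zero, Complex.norm_real, Real.norm_eq_abs, abs_div,
            abs_of_pos ht0]
          refine le_trans ?_ hCt
          exact div_le_div_of_nonneg_right ((hCul i _).trans (hCule i)) ht0.le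
        · rw [cE_succ, Fin.cons_succ]
          have h4 : grow (U i) y (Fin.natAdd n b).succ = 0 := grow_pul_nat (hu i) b y
          rw [h4, sub_zero, norm_zero]
          exact hδ.le
    · rw [hNa]
      rcases z with j | b
      · simp only [hN', Equiv.symm_apply_apply, Sum.elim_inl, Sum.elim_inr]
        rw [cE_inl, Fin.cons_succ, sub_self, norm_zero]
        exact hδ.le
      · simp only [hN', Equiv.symm_apply_apply, Sum.elim_inr]
        refine Fin.cases ?_ (fun b => ?_) b
        · rw [cE_zero, Fin.cons_zero, Fin.cons_zero, ← Complex.ofReal_sub, Complex.norm_real,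
            Real.norm_eq_abs]
          exact (h1 a _).trans (by linarith)
        · rw [cE_succ, Fin.cons_succ, Fin.cons_succ]
          refine (norm_grow_sub_le hy _ _).trans ?_
          have := h2 a b (tl (n + s) y)
          linarith
  have hbound : ∀ y ∈ Icc (0 : Fin (n + s + 1) → ℝ) 1, ∀ l j, ‖N' y l j‖ ≤ R := by
    intro y hy l j
    obtain ⟨x, rfl⟩ := (rE n s).surjective l
    obtain ⟨z, rfl⟩ := (cE n s).surjective j
    rcases x with i | a
    · rcases z with j | b
      · simp only [hN', Equiv.symm_apply_apply, Sum.elim_inl]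
        have h4 : (k : ℂ) * Mb y i j = grow (U i) y (Fin.castAdd s j).succ :=
          (grow_pul_cast (hu i) j y).symm
        rw [h4]
        refine (norm_grow_succ_le hy _).trans ?_
        have h5 : lw (U i) (Fin.castAdd s j) (tl (n + s) y) =
          k * lw (u i) j (pul n s k (tl (n + s) y)) := lw_pul_cast (hu i) j _
        rw [h5, norm_mul, Complex.norm_natCast]
        have h6 := (hCuw i j (pul n s k (tl (n + s) y))).trans (hCule i)
        have h7 := mul_le_mul_of_nonneg_left h6 hkR
        linarith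
      · simp only [hN', Equiv.symm_apply_apply, Sum.elim_inl, Sum.elim_inr]
        rw [norm_zero]
        linarith
    · rcases z with j | b
      · simp only [hN', Equiv.symm_apply_apply, Sum.elim_inl, Sum.elim_inr]
        refine (norm_grow_succ_le hy _).trans ?_
        have := h3 a j (tl (n + s) y)
        linarith
      · simp only [hN', Equiv.symm_apply_apply, Sum.elim_inr]
        refine Fin.cases ?_ (fun b => ?_) b
        · rw [Fin.cons_zero, Complex.norm_real, Real.norm_eq_abs]
          have := Finset.single_le_sum (f := fun a => |c a|)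
            (fun a _ => abs_nonneg _) (Finset.mem_univ a)
          linarith
        · rw [Fin.cons_succ, norm_mul, norm_mul, norm_mul, Complex.norm_I, Complex.norm_real,
            Complex.norm_real, Complex.norm_ofNat, mul_one, Real.norm_eq_abs, Real.norm_eq_abs,
            abs_of_pos hpi]
          have e1 := Finset.single_le_sum (f := fun l => 2 * Real.pi * |w l a|)
            (fun l _ => by positivity) (Finset.mem_univ b)
          have e2 := Finset.single_le_sum (f := fun a => ∑ l, 2 * Real.pi * |w l a|)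
            (fun a _ => Finset.sum_nonneg fun l _ => by positivity) (Finset.mem_univ a)
          linarith
  -- the integrals
  have hyc : Continuous yb := by
    refine continuous_pi fun j => ?_
    refine Fin.cases ?_ (fun j => ?_) j
    · exact continuous_apply _
    · exact (continuous_apply j).comp ((pul n s k).continuous.comp (tl (n + s)).continuous)
  have hc1 : Continuous fun y => integrand g y / t := (continuous_integrand hgg).div_const t
  have hc2 : Continuous fun y => SU.cst n s k * (zm c w).det * integrand G (yb y) :=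
    continuous_const.mul ((continuous_integrand hGg).comp hyc)
  have hI1 : pairing g / t = ∫ y in Icc (0 : Fin (n + s + 1) → ℝ) 1, integrand g y / t := by
    unfold pairing
    rw [integral_div]
  have hI2 : SU.cst n s k * (zm c w).det * pairing G =
      ∫ y in Icc (0 : Fin (n + s + 1) → ℝ) 1,
        SU.cst n s k * (zm c w).det * integrand G (yb y) := by
    rw [integral_const_mul]
    congr 1
    exact (integral_pul hk hGg hGp).symm
  rw [hI1, hI2, ← MeasureTheory.integral_sub]
  · have hvol : (volume : Measure (Fin (n + s + 1) → ℝ)) (Icc 0 1) = 1 := by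
      rw [Real.volume_Icc_pi]
      simp
    have h4 := norm_setIntegral_le_of_norm_le_const (μ := (volume : Measure (Fin (n + s + 1) → ℝ)))
      (s := Icc 0 1)
      (f := fun y => integrand g y / t - SU.cst n s k * (zm c w).det * integrand G (yb y))
      (C := ε) (by rw [hvol]; exact ENNReal.one_lt_top) fun y hy => by
        rw [Real.norm_eq_abs, integrand_scale g ht0.ne', ← hmain', ← Complex.sub_re, ← mul_sub]
        refine (Complex.abs_re_le_norm _).trans ?_
        rw [norm_mul, norm_pow, norm_neg, Complex.norm_I, one_pow, one_mul]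
        exact hdet (N' y) (N y) (hbound y hy) (hclose y hy)
    rw [Measure.real, hvol] at h4
    simpa using h4
  · exact hc1.continuousOn.integrableOn_compact isCompact_Icc
  · exact hc2.continuousOn.integrableOn_compact isCompact_Icc

end Pool.Agent.L7h9.TS
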