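import Pool.Agent.L7h9.TS.Cls
import Pool.Agent.L7h9.SU.Base
set_option autoImplicit false

/-!
Tori in the open part `V(x) ≠ 0` of the torus, and the periods of the symbols `{u_0, ..., u_n}`.
-/

namespace Pool.Agent.L7h9.TS

open Pool.Agent.TH826.MK

open Pool.Agent.Y797.TW (Tower fct)

open Pool.Agent.N65.TL

open Pool.Agent.L7h9.SU

open Pool.Agent.L7h9.LT (lval lder)

section poly

variable {K : Type*} [Field K] {n : ℕ} (V : LP K (n + 1))

/-- bounds for the exponents -/
noncomputable def Mx (j : Fin (n + 1)) : ℤ := ∑ m ∈ V.coeff.support, |m j|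

/-- the exponents of the polynomial -/
noncomputable def exV (m : Fin (n + 1) → ℤ) : Fin (n + 1) →₀ ℕ :=
  Finsupp.equivFunOnFinite.symm fun j => (m j + Mx V j).toNat

/-- the polynomial `x^M V(x)` -/
noncomputable def tpoly : MvPolynomial (Fin (n + 1)) K :=
  ∑ m ∈ V.coeff.support, MvPolynomial.monomial (exV V m) (V.coeff m)

variable {V}

theorem Mx_nonneg {m : Fin (n + 1) → ℤ} (hm : m ∈ V.coeff.support) (j : Fin (n + 1)) :
    0 ≤ m j + Mx V j := by
  have h1 : |m j| ≤ Mx V j := Finset.single_le_sum (f := fun m : Fin (n + 1) → ℤ => |m j|)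
    (fun m _ => abs_nonneg (m j)) hm
  have h2 := neg_abs_le (m j)
  linarith

theorem exV_inj {m m' : Fin (n + 1) → ℤ} (hm : m ∈ V.coeff.support) (hm' : m' ∈ V.coeff.support)
    (h : exV V m = exV V m') : m = m' := by
  funext j
  have h1 := DFunLike.congr_fun h j
  have h2 : (m j + Mx V j).toNat = (m' j + Mx V j).toNat := h1
  have h3 := Mx_nonneg hm j
  have h4 := Mx_nonneg hm' j
  omega

theorem tpoly_ne_zero {m0 : Fin (n + 1) → ℤ} (h0 : V.coeff m0 ≠ 0) : tpoly V ≠ 0 := by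
  classical
  intro h
  have h1 := congrArg (MvPolynomial.coeff (exV V m0)) h
  unfold tpoly at h1
  rw [MvPolynomial.coeff_sum, MvPolynomial.coeff_zero,
    Finset.sum_eq_single_of_mem m0 (Finsupp.mem_support_iff.2 h0)] at h1
  · rw [MvPolynomial.coeff_monomial, if_pos rfl] at h1
    exact h0 h1
  · intro m hm hne
    rw [MvPolynomial.coeff_monomial, if_neg]
    exact fun he => hne (exV_inj hm (Finsupp.mem_support_iff.2 h0) he)

theorem eval_tpoly (σ : K →+* ℂ) {X : Fin (n + 1) → ℂ} (hX : ∀ j, X j ≠ 0) :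
    MvPolynomial.eval₂ σ X (tpoly V) = (∏ j, X j ^ Mx V j) * lval σ V X := by
  unfold tpoly lval
  rw [MvPolynomial.eval₂_sum, Finset.mul_sum]
  refine Finset.sum_congr rfl fun m hm => ?_
  rw [MvPolynomial.eval₂_monomial, Finsupp.prod_fintype _ _ fun _ => pow_zero _, mul_left_comm,
    ← Finset.prod_mul_distrib]
  congr 1
  refine Finset.prod_congr rfl fun j _ => ?_
  have h1 : exV V m j = (m j + Mx V j).toNat := rfl
  rw [h1, ← zpow_natCast, Int.toNat_of_nonneg (Mx_nonneg hm j), zpow_add₀ (hX j), mul_comm]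

end poly

section torus

variable {K : Type*} [Field K] {n d : ℕ} {V : LP K (n + 1)} {σ : K →+* ℂ}
  {X : Fin (n + 1) → (Fin d → ℝ) → ℂ}

theorem contDiff_lval (hX : ∀ i, Good (X i)) (P : LP K (n + 1)) :
    ContDiff ℝ 2 fun θ => lval σ P fun i => X i θ := by
  unfold lval
  exact ContDiff.sum fun m _ => contDiff_const.mul
    (contDiff_prod fun i _ => contDiff_zpow' (hX i) _)

theorem bpt_congr {S : Type*} [CommRing S] {c : K →+* S} {x x' : Fin (n + 1) → Sˣ}
    (h : IsUnit (lev c x V)) (h' : IsUnit (lev c x' V)) (e : x = x') :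
    bpt c x h = bpt c x' h' := by
  subst e
  rfl

/-- the torus in the open part -/
noncomputable def bT (hX : ∀ i, Good (X i)) (hXp : ∀ i, Per (X i))
    (h : ∀ θ, IsUnit (lev σ (uval hX θ) V)) : Torus (Bs V) d where
  e θ := bpt σ (uval hX θ) (h θ)
  smooth f := by
    obtain ⟨m, a, ha⟩ := IsLocalization.Away.surj V f
    have e1 : (fun θ => bpt σ (uval hX θ) (h θ) f) = fun θ =>
        lval σ a (fun i => X i θ) * (lval σ V (fun i => X i θ) ^ m)⁻¹ := by
      funext θ
      have e2 := congrArg (bpt σ (uval hX θ) (h θ)) ha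
      rw [map_mul, map_pow] at e2
      have e3 : ∀ q : LP K (n + 1), bpt σ (uval hX θ) (h θ) (algebraMap (LP K (n + 1)) (Bs V) q) =
          lval σ q (fun i => X i θ) := fun q =>
        (bpt_bmap σ (uval hX θ) (h θ) q).trans (lev_uval hX θ σ)
      rw [e3, e3] at e2
      have e5 : lval σ V (fun i => X i θ) ≠ 0 := by
        rw [← lev_uval hX θ σ]
        exact (h θ).ne_zero
      rw [← e2, mul_assoc, mul_inv_cancel₀ (pow_ne_zero _ e5), mul_one]
    rw [e1]
    refine (contDiff_lval hX a).mul (((contDiff_lval hX V).pow m).inv fun θ => ?_)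
    refine pow_ne_zero _ ?_
    rw [← lev_uval hX θ σ]
    exact (h θ).ne_zero
  periodic θ i := by
    refine bpt_congr _ _ ?_
    funext j
    exact Units.ext (hXp j θ i)

end torus

section periods

variable {K : Type*} [Field K] [CharZero K] {n : ℕ} {Q : Marked K n}

/-- the tower -/
noncomputable def tow (Q : Marked K n) : Tower K n where
  r := Q.r
  phi j i := MvPolynomial.C (Q.c j i)
  g := (∏ j, MvPolynomial.X j) * tpoly Q.W

theorem base_periods (σ : K →+* ℂ) (hQ : Q.Admissible) :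
    ∃ γ : (∀ j, Fin (Q.r j)) → Torus (Bs Q.W) (n + 1),
      (∀ t θ x, (γ t).e θ (bcst Q.W x) = σ x) ∧
      (Matrix.of fun t k => (γ t).reg (byTwo (bcst Q.W) (symb (bu Q k)))).det ≠ 0 := by
  classical
  obtain ⟨m0, hm0, -⟩ := hQ.interior (fun _ => 1) (fun h => by
    have := congrFun h 0
    simp at this)
  have hg0 : (∏ j : Fin (n + 1), (MvPolynomial.X j : MvPolynomial (Fin (n + 1)) K)) * tpoly Q.W ≠
      0 := mul_ne_zero (Finset.prod_ne_zero_iff.2 fun j _ => MvPolynomial.X_ne_zero j)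
    (tpoly_ne_zero hm0)
  have hG : (tow Q).Graphs := by
    refine ⟨fun j i l hl => ?_, fun j i i' h => ?_, hg0⟩
    · simp only [tow, MvPolynomial.vars_C] at hl
      exact absurd hl (Finset.notMem_empty _)
    · exact hQ.inj j (MvPolynomial.C_injective _ _ h)
  have hpi := Real.pi_pos
  have hlog2 : 0 < Real.log 2 := Real.log_pos (by norm_num)
  set c0 : ℝ := (2 * Real.pi) ^ (n + 1) * sg (n + 1) 0 with hc0
  have hsg : sg (n + 1) 0 ≠ 0 := fun h => by
    have := sg_mul_self (n + 1) 0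
    rw [h] at this
    norm_num at this
  have hc00 : c0 ≠ 0 := mul_ne_zero (by positivity) hsg
  have hdiag : (Matrix.diagonal fun _ : (∀ j, Fin (Q.r j)) => c0).det ≠ 0 := by
    rw [Matrix.det_diagonal]
    exact Finset.prod_ne_zero_iff.2 fun _ _ => hc00
  obtain ⟨δ, hδ, hnear⟩ := Pool.Agent.TH826.SX.det_ne_zero_near _ hdiag
  choose X hX hXp hXne hXpair using fun c : (∀ j, Fin (Q.r j)) =>
    exists_base (A := tow Q) σ hG c (ε := δ / 2) (by linarith)
  have hg : ∀ c θ, MvPolynomial.eval₂ σ (X c θ) ((∏ j, MvPolynomial.X j) * tpoly Q.W) ≠ 0 :=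
    fun c θ => hXne c θ none
  have hXj : ∀ c θ j, X c θ j ≠ 0 := fun c θ j h0 => hg c θ (by
    rw [MvPolynomial.eval₂_mul, MvPolynomial.eval₂_prod,
      Finset.prod_eq_zero (Finset.mem_univ j) (by rw [MvPolynomial.eval₂_X, h0]), zero_mul])
  have hVne : ∀ c θ, lval σ Q.W (X c θ) ≠ 0 := fun c θ h0 => hg c θ (by
    rw [MvPolynomial.eval₂_mul, eval_tpoly σ (hXj c θ), h0, mul_zero, mul_zero])
  have hfac : ∀ c θ j i, X c θ j - σ (Q.c j i) ≠ 0 := fun c θ j i h0 => hXne c θ (some ⟨j, i⟩) (by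
    show MvPolynomial.eval₂ σ (X c θ) (MvPolynomial.X j - MvPolynomial.C (Q.c j i)) = 0
    rw [MvPolynomial.eval₂_sub, MvPolynomial.eval₂_X, MvPolynomial.eval₂_C, h0])
  have hXg : ∀ c j, Good fun θ => X c θ j := fun c j => ⟨contDiff_pi.1 (hX c) j, fun θ => hXj c θ j⟩
  have hXper : ∀ c j, Per fun θ => X c θ j := fun c j θ i => congrFun (hXp c θ i) j
  have hu : ∀ c θ, IsUnit (lev σ (uval (hXg c) θ) Q.W) := fun c θ => by
    rw [lev_uval]
    exact isUnit_iff_ne_zero.2 (hVne c θ)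
  set γ : (∀ j, Fin (Q.r j)) → Torus (Bs Q.W) (n + 1) := fun c => bT (hXg c) (hXper c) (hu c)
    with hγ
  have hγσ : ∀ t θ x, (γ t).e θ (bcst Q.W x) = σ x := fun t θ x =>
    bpt_bcst σ _ (hu t θ) x
  have hγx : ∀ t θ j, (γ t).e θ (bx Q.W j : Bs Q.W) = X t θ j := fun t θ j =>
    bpt_bx σ _ (hu t θ) j
  refine ⟨γ, hγσ, ?_⟩
  let pm : Matrix (∀ j, Fin (Q.r j)) (∀ j, Fin (Q.r j)) ℝ := fun c k =>
    pairing (bfun (tow Q) σ (X c) k) / Real.log 2
  have h3 := hnear pm
    (fun c k => by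
      have h4 := hXpair c k
      have h5 : (Matrix.diagonal fun _ : (∀ j, Fin (Q.r j)) => c0) c k =
          (2 * Real.pi) ^ (n + 1) * (sg (n + 1) 0 * if k = c then 1 else 0) := by
        by_cases h : k = c
        · subst h
          rw [Matrix.diagonal_apply_eq, if_pos rfl, mul_one]
        · rw [Matrix.diagonal_apply_ne _ (Ne.symm h), if_neg h, mul_zero, mul_zero]
      rw [h5]
      exact lt_of_le_of_lt h4 (by linarith))
  have h6 : (Matrix.of fun t k => (γ t).reg (byTwo (bcst Q.W) (symb (bu Q k)))) =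
      Real.log 2 • pm := by
    ext c k
    show (γ c).reg (byTwo (bcst Q.W) (symb (bu Q k))) =
      Real.log 2 * (pairing (bfun (tow Q) σ (X c) k) / Real.log 2)
    rw [reg_byTwo (hγσ c), mul_div_cancel₀ _ hlog2.ne']
    congr 1
    funext l
    obtain ⟨r, rfl⟩ := (rE (n + 1) 0).surjective l
    rcases r with i | a
    · have e1 : bfun (tow Q) σ (X c) k (rE (n + 1) 0 (Sum.inl i)) = fun θ =>
            MvPolynomial.eval₂ σ (X c θ) (MvPolynomial.X i - MvPolynomial.C (Q.c i (k i).succ)) /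
              MvPolynomial.eval₂ σ (X c θ) (MvPolynomial.X i - MvPolynomial.C (Q.c i 0)) :=
        Fin.append_left (m := n + 1) (n := 1) _ _ i
      have e2 : Fin.append (fun i => (γ c).fn (bu Q k i : Bs Q.W))
          (fun (_ : Fin 1) _ => (2 : ℂ)) (rE (n + 1) 0 (Sum.inl i)) =
          (γ c).fn (bu Q k i : Bs Q.W) :=
        Fin.append_left (m := n + 1) (n := 1) _ _ i
      rw [e1, e2]
      funext θ
      rw [MvPolynomial.eval₂_sub, MvPolynomial.eval₂_sub, MvPolynomial.eval₂_X,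
        MvPolynomial.eval₂_C, MvPolynomial.eval₂_C]
      have h7 := congrArg ((γ c).e θ) (bu_mul Q k i)
      rw [map_mul, map_sub, map_sub, hγx, hγσ, hγσ] at h7
      exact eq_div_of_mul_eq (hfac _ _ _ _) h7
    · have e1 : bfun (tow Q) σ (X c) k (rE (n + 1) 0 (Sum.inr a)) = fun _ => (2 : ℂ) :=
        Fin.append_right (m := n + 1) (n := 1) _ _ a
      have e2 : Fin.append (fun i => (γ c).fn (bu Q k i : Bs Q.W))
          (fun (_ : Fin 1) _ => (2 : ℂ)) (rE (n + 1) 0 (Sum.inr a)) = fun _ => (2 : ℂ) :=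
        Fin.append_right (m := n + 1) (n := 1) _ _ a
      rw [e1, e2]
  rw [h6, Matrix.det_smul]
  exact mul_ne_zero (pow_ne_zero _ hlog2.ne') h3

end periods

end Pool.Agent.L7h9.TS
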