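import Pool.Agent.L7h9.TS.Ent
set_option autoImplicit false

/-!
The exchange of the two sides of the hypersurfaces `W(z) = λ V(x)`.
-/

namespace Pool.Agent.L7h9.TS

open Pool.Agent.TH826.MK

open Pool.Agent.N65.TL

open Pool.Agent.L7h9.SU

section units

variable {K : Type*} [Field K] {n : ℕ} (Q : Marked K n)

theorem bl_coe (j : Fin (n + 1)) (i : Fin (Q.r j + 1)) :
    (bl Q j i : Bs Q.W) = bx Q.W j - bcst Q.W (Q.c j i) := by
  show bmap Q.W (lin j (Q.c j i)) = _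
  unfold lin
  rw [map_sub]
  rfl

theorem bu_mul (k : ∀ j, Fin (Q.r j)) (j : Fin (n + 1)) :
    (bu Q k j : Bs Q.W) * (bx Q.W j - bcst Q.W (Q.c j 0)) =
      bx Q.W j - bcst Q.W (Q.c j (k j).succ) := by
  rw [← bl_coe, ← bl_coe, ← Units.val_mul]
  unfold bu
  rw [div_mul_cancel]

end units

section cls

variable {K : Type*} [Field K] {s n : ℕ} (P : Marked K s) (Q : Marked K n) (lam : Kˣ)

theorem zl_coe (j : Fin (s + 1)) (i : Fin (P.r j + 1)) : (zl P Q lam j i : XR P.W Q.W lam) =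
    xz P.W Q.W lam j - xcst P.W Q.W lam (P.c j i) := lev_lin _ _ _ _

theorem zu_mul (k : ∀ j, Fin (P.r j)) (j : Fin (s + 1)) : (zu P Q lam k j : XR P.W Q.W lam) *
    (xz P.W Q.W lam j - xcst P.W Q.W lam (P.c j 0)) =
      xz P.W Q.W lam j - xcst P.W Q.W lam (P.c j (k j).succ) := by
  rw [← zl_coe, ← zl_coe, ← Units.val_mul]
  unfold zu
  rw [div_mul_cancel]

theorem xu_mul (k : ∀ j, Fin (Q.r j)) (j : Fin (n + 1)) : (xu P Q lam k j : XR P.W Q.W lam) *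
    (xx P.W Q.W lam j - xcst P.W Q.W lam (Q.c j 0)) =
      xx P.W Q.W lam j - xcst P.W Q.W lam (Q.c j (k j).succ) := by
  have h := congrArg (xbase P.W Q.W lam) (bu_mul Q k j)
  rw [map_mul, map_sub, map_sub] at h
  exact h

theorem isUnit_xl (j : Fin (n + 1)) (i : Fin (Q.r j + 1)) :
    IsUnit ((xx P.W Q.W lam j : XR P.W Q.W lam) - xcst P.W Q.W lam (Q.c j i)) := by
  have h := (bl Q j i).isUnit.map (xbase P.W Q.W lam)
  rw [bl_coe, map_sub] at h
  exact h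

/-- The homomorphism which exchanges the two sides. -/
noncomputable def swap : XR P.W Q.W lam →+* XR Q.W P.W lam⁻¹ :=
  xpt (xcst Q.W P.W lam⁻¹) (xx Q.W P.W lam⁻¹) (xz Q.W P.W lam⁻¹)
    (isUnit_lev_xz Q.W P.W lam⁻¹) (by
      rw [xeqn, lev_xx, ← mul_assoc, ← map_mul, Units.mul_inv, map_one, one_mul]
      rfl)

theorem swap_xz (i : Fin (s + 1)) :
    swap P Q lam (xz P.W Q.W lam i : XR P.W Q.W lam) = xx Q.W P.W lam⁻¹ i := xpt_xz _ _ _ _ _ _

theorem swap_xx (j : Fin (n + 1)) :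
    swap P Q lam (xx P.W Q.W lam j : XR P.W Q.W lam) = xz Q.W P.W lam⁻¹ j := xpt_xx _ _ _ _ _ _

theorem swap_cst (a : K) :
    swap P Q lam (xcst P.W Q.W lam a) = xcst Q.W P.W lam⁻¹ a := xpt_cst _ _ _ _ _ _

theorem swap_xu (k : ∀ j, Fin (Q.r j)) (j : Fin (n + 1)) :
    swap P Q lam (xu P Q lam k j : XR P.W Q.W lam) = zu Q P lam⁻¹ k j := by
  have h := congrArg (swap P Q lam) (xu_mul P Q lam k j)
  rw [map_mul, map_sub, map_sub, swap_xx, swap_cst, swap_cst, ← zl_coe, ← zl_coe] at h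
  have h2 := zu_mul Q P lam⁻¹ k j
  rw [← zl_coe, ← zl_coe] at h2
  exact (zl Q P lam⁻¹ j 0).mul_left_inj.1 (h.trans h2.symm)

theorem swap_zu (k : ∀ j, Fin (P.r j)) (j : Fin (s + 1)) :
    swap P Q lam (zu P Q lam k j : XR P.W Q.W lam) = xu Q P lam⁻¹ k j := by
  have h := congrArg (swap P Q lam) (zu_mul P Q lam k j)
  rw [map_mul, map_sub, map_sub, swap_xz, swap_cst, swap_cst] at h
  have h2 := xu_mul Q P lam⁻¹ k j
  exact (isUnit_xl Q P lam⁻¹ j 0).mul_left_inj.1 (h.trans h2.symm)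

end cls

end Pool.Agent.L7h9.TS
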