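import Pool.Agent.L7h9.SU.Fin
set_option autoImplicit false

/-!
The hypersurfaces `W(z) = λ V(x)`: definitions.
-/

namespace Pool.Agent.L7h9.TS

open Pool.Agent.TH826.MK

open Pool.Agent.N65.TL

open Pool.Agent.L7h9.SU

section marked

variable {K : Type*} [Field K] {n : ℕ}

/-- The Laurent polynomial `x_j - c`. -/
noncomputable def lin (j : Fin (n + 1)) (c : K) : LP K (n + 1) :=
  ((zlau j : (LP K (n + 1))ˣ) : LP K (n + 1)) - AddMonoidAlgebra.singleZeroRingHom c

/-- Data which define the Laurent polynomial `G ∏_j ∏_{0 ≤ i ≤ r_j} (x_j - c_{j,i})` in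
`x_0, ..., x_n`. -/
structure Marked (K : Type*) [Field K] (n : ℕ) where
  /-- the Laurent polynomial `G` -/
  G : LP K (n + 1)
  /-- the numbers `r_j` -/
  r : Fin (n + 1) → ℕ
  /-- the numbers `c_{j,i}` -/
  c : (j : Fin (n + 1)) → Fin (r j + 1) → K

/-- The Laurent polynomial `G ∏_j ∏_i (x_j - c_{j,i})`. -/
noncomputable def Marked.W (P : Marked K n) : LP K (n + 1) := P.G * ∏ j, ∏ i, lin j (P.c j i)

/-- The origin lies in the interior of the Newton polytope of `W = G ∏_j ∏_i (x_j - c_{j,i})`, `W`
divides a product of polynomials of simplex type, with an integral quotient, `G` has integral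
coefficients, the numbers `c_{j,i}` are roots of unity, and they are different for each `j`. -/
structure Marked.Admissible (P : Marked K n) : Prop where
  interior : Interior P.W
  tame : Tame P.W
  integral : Integral P.G
  root : ∀ j i, ∃ k : ℕ, k ≠ 0 ∧ P.c j i ^ k = 1
  inj : ∀ j, Function.Injective (P.c j)

theorem Marked.lin_dvd (P : Marked K n) (j : Fin (n + 1)) (i : Fin (P.r j + 1)) :
    lin j (P.c j i) ∣ P.W := by
  unfold Marked.W
  refine Dvd.dvd.mul_left ?_ _
  exact (Finset.dvd_prod_of_mem (fun i => lin j (P.c j i)) (Finset.mem_univ i)).trans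
    (Finset.dvd_prod_of_mem (fun j => ∏ i, lin j (P.c j i)) (Finset.mem_univ j))

end marked

section base

variable {K : Type*} [Field K] {n : ℕ} (V : LP K (n + 1))

/-- The coordinate ring of the open part `V(x) ≠ 0` of the torus with the coordinates
`x_0, ..., x_n`. -/
def Bs : Type _ := Localization.Away V

noncomputable instance : CommRing (Bs V) := show CommRing (Localization.Away V) from inferInstance

noncomputable instance : Algebra (LP K (n + 1)) (Bs V) :=
  show Algebra (LP K (n + 1)) (Localization.Away V) from inferInstance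

instance : IsLocalization.Away V (Bs V) :=
  show IsLocalization.Away V (Localization.Away V) from inferInstance

/-- The restriction of functions to the open part. -/
noncomputable def bmap : LP K (n + 1) →+* Bs V := algebraMap _ _

/-- The constants. -/
noncomputable def bcst : K →+* Bs V := (bmap V).comp AddMonoidAlgebra.singleZeroRingHom

/-- The units `x_j`. -/
noncomputable def bx (j : Fin (n + 1)) : (Bs V)ˣ :=
  Units.map (bmap V).toMonoidHom (zlau j)

/-- The unit `V(x)`. -/
noncomputable def bV : (Bs V)ˣ :=
  (IsLocalization.Away.algebraMap_isUnit (S := Bs V) V).unit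

theorem bV_coe : (bV V : Bs V) = bmap V V := rfl

end base

section variety

variable {K : Type*} [Field K] {s n : ℕ}

/-- The coordinate ring of the hypersurface `W(z) = λ V(x)` with `z_i ≠ 0`, `x_j ≠ 0`, `V(x) ≠ 0`. -/
def XR (W : LP K (s + 1)) (V : LP K (n + 1)) (lam : Kˣ) : Type _ :=
  SRing (bcst V) W (bcst V lam * bV V)

noncomputable instance instXR (W : LP K (s + 1)) (V : LP K (n + 1)) (lam : Kˣ) :
    CommRing (XR W V lam) :=
  show CommRing (SRing (bcst V) W (bcst V lam * bV V)) from inferInstance

variable (W : LP K (s + 1)) (V : LP K (n + 1)) (lam : Kˣ)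

/-- The functions of `x`. -/
noncomputable def xbase : Bs V →+* XR W V lam := sbase (bcst V) W (bcst V lam * bV V)

/-- The constants. -/
noncomputable def xcst : K →+* XR W V lam := (xbase W V lam).comp (bcst V)

/-- The units `x_j`. -/
noncomputable def xx (j : Fin (n + 1)) : (XR W V lam)ˣ :=
  Units.map (xbase W V lam).toMonoidHom (bx V j)

/-- The units `z_i`. -/
noncomputable def xz (i : Fin (s + 1)) : (XR W V lam)ˣ := sz (bcst V) W (bcst V lam * bV V) i

end variety

end Pool.Agent.L7h9.TS
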