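import Pool.Agent.L7h9.TS.Eqn
set_option autoImplicit false

/-!
The classes on the hypersurfaces `W(z) = λ V(x)`.
-/

namespace Pool.Agent.L7h9.TS

open Pool.Agent.TH826.MK

open Pool.Agent.N65.TL

open Pool.Agent.L7h9.SU

section units

variable {K : Type*} [Field K] {n : ℕ} (Q : Marked K n)

theorem isUnit_bl (j : Fin (n + 1)) (i : Fin (Q.r j + 1)) :
    IsUnit (bmap Q.W (lin j (Q.c j i))) :=
  isUnit_of_dvd_unit (map_dvd (bmap Q.W) (Q.lin_dvd j i)) (bV Q.W).isUnit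

/-- The unit `x_j - c_{j,i}` of the open part. -/
noncomputable def bl (j : Fin (n + 1)) (i : Fin (Q.r j + 1)) : (Bs Q.W)ˣ := (isUnit_bl Q j i).unit

/-- The units `u_j = (x_j - c_{j,k_j + 1}) / (x_j - c_{j,0})` of the open part. -/
noncomputable def bu (k : ∀ j, Fin (Q.r j)) (j : Fin (n + 1)) : (Bs Q.W)ˣ :=
  bl Q j (k j).succ / bl Q j 0

end units

section cls

variable {K : Type*} [Field K] {s n : ℕ} (P : Marked K s) (Q : Marked K n) (lam : Kˣ)

/-- The units `u_j = (x_j - c_{j,k_j + 1}) / (x_j - c_{j,0})`. -/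
noncomputable def xu (k : ∀ j, Fin (Q.r j)) (j : Fin (n + 1)) : (XR P.W Q.W lam)ˣ :=
  Units.map (xbase P.W Q.W lam).toMonoidHom (bu Q k j)

theorem isUnit_zl (j : Fin (s + 1)) (i : Fin (P.r j + 1)) :
    IsUnit (lev (xcst P.W Q.W lam) (xz P.W Q.W lam) (lin j (P.c j i))) :=
  isUnit_of_dvd_unit (map_dvd _ (P.lin_dvd j i)) (isUnit_lev_xz P.W Q.W lam)

/-- The units `z_j - c_{j,i}`. -/
noncomputable def zl (j : Fin (s + 1)) (i : Fin (P.r j + 1)) : (XR P.W Q.W lam)ˣ :=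
  (isUnit_zl P Q lam j i).unit

/-- The units `w_j = (z_j - c_{j,k_j + 1}) / (z_j - c_{j,0})`. -/
noncomputable def zu (k : ∀ j, Fin (P.r j)) (j : Fin (s + 1)) : (XR P.W Q.W lam)ˣ :=
  zl P Q lam j (k j).succ / zl P Q lam j 0

/-- The index set of the classes. -/
abbrev Ix : Type := (∀ j, Fin (Q.r j)) ⊕ (∀ j, Fin (P.r j))

/-- The classes `{u_0, ..., u_n, z_0, ..., z_s}` and `{x_0, ..., x_n, w_0, ..., w_s}` in
`K_{n+s+2} ⊗ ℚ` of the coordinate ring. -/
noncomputable def cls (k : Ix P Q) : KQ (XR P.W Q.W lam) (n + 1 + (s + 1)) :=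
  Sum.elim (fun k => symb (Fin.append (xu P Q lam k) (xz P.W Q.W lam)))
    (fun k => symb (Fin.append (xx P.W Q.W lam) (zu P Q lam k))) k

end cls

end Pool.Agent.L7h9.TS
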