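import Pool.Agent.L7h9.TS.Pts
set_option autoImplicit false

/-!
The equation of the hypersurfaces `W(z) = λ V(x)`, and their points.
-/

namespace Pool.Agent.L7h9.TS

open Pool.Agent.TH826.MK

open Pool.Agent.N65.TL

open Pool.Agent.L7h9.SU

section eqn

variable {K : Type*} [Field K] {s n : ℕ} (W : LP K (s + 1)) (V : LP K (n + 1)) (lam : Kˣ)

theorem xeqn : lev (xcst W V lam) (xz W V lam) W =
    xcst W V lam lam * xbase W V lam (bV V) := by
  have h := eqn_of_hom (RingHom.id (SRing (bcst V) W (bcst V lam * bV V)))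
  have h1 : lev (xcst W V lam) (xz W V lam) W =
      (xbase W V lam) ((bcst V lam * bV V : Bs V)) := h
  rw [h1, map_mul]
  rfl

theorem lev_xx (P : LP K (n + 1)) : lev (xcst W V lam) (xx W V lam) P =
    xbase W V lam (bmap V P) :=
  (hom_bmap (xbase W V lam) P).symm

theorem isUnit_lev_xx : IsUnit (lev (xcst W V lam) (xx W V lam) V) := by
  rw [lev_xx]
  exact (bV V).isUnit.map _

theorem isUnit_xcst : IsUnit (xcst W V lam lam) := lam.isUnit.map _

theorem isUnit_lev_xz : IsUnit (lev (xcst W V lam) (xz W V lam) W) := by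
  rw [xeqn]
  exact (isUnit_xcst W V lam).mul ((bV V).isUnit.map _)

end eqn

section pt

variable {K S : Type*} [Field K] [CommRing S] {s n : ℕ} {W : LP K (s + 1)} {V : LP K (n + 1)}
  {lam : Kˣ}

theorem xpt_aux {c : K →+* S} {z : Fin (s + 1) → Sˣ} {x : Fin (n + 1) → Sˣ}
    (hV : IsUnit (lev c x V)) (h : lev c z W = c lam * lev c x V) :
    lev ((bpt c x hV).comp (bcst V)) z W = bpt c x hV (bcst V lam * bV V) := by
  rw [bpt_comp, map_mul, bpt_bcst, bpt_bV, h]

/-- A point of the hypersurface. -/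
noncomputable def xpt (c : K →+* S) (z : Fin (s + 1) → Sˣ) (x : Fin (n + 1) → Sˣ)
    (hV : IsUnit (lev c x V)) (h : lev c z W = c lam * lev c x V) : XR W V lam →+* S :=
  sev (bpt c x hV) z (xpt_aux hV h)

variable (c : K →+* S) (z : Fin (s + 1) → Sˣ) (x : Fin (n + 1) → Sˣ)
    (hV : IsUnit (lev c x V)) (h : lev c z W = c lam * lev c x V)

theorem xpt_cst (a : K) : xpt c z x hV h (xcst W V lam a) = c a := by
  unfold xcst
  rw [RingHom.comp_apply]
  exact (sev_sbase _ _ (xpt_aux hV h) _).trans (bpt_bcst _ _ _ _)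

theorem xpt_xx (j : Fin (n + 1)) : xpt c z x hV h (xx W V lam j : XR W V lam) = x j :=
  (sev_sbase _ _ (xpt_aux hV h) _).trans (bpt_bx _ _ _ _)

theorem xpt_xz (i : Fin (s + 1)) : xpt c z x hV h (xz W V lam i : XR W V lam) = z i :=
  sev_sz _ _ (xpt_aux hV h) i

end pt

end Pool.Agent.L7h9.TS
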