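import Pool.Agent.L7h9.SU.Tor
set_option autoImplicit false

/-!
The ratios `(z - a) / (z - b)` at points where `z` is large or small.
-/

namespace Pool.Agent.L7h9.TS

open Pool.Agent.TH826.MK

variable {D : ℕ}

theorem lw_sub_const {Z : (Fin D → ℝ) → ℂ} (hZ : Good Z) (a : ℂ) (j : Fin D) (θ : Fin D → ℝ) :
    lw (fun θ => Z θ - a) j θ = lw Z j θ * (Z θ / (Z θ - a)) := by
  unfold lw
  have h1 : fderiv ℝ (fun θ => Z θ - a) θ = fderiv ℝ Z θ := by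
    rw [fderiv_sub_const]
  rw [h1]
  have h2 := hZ.ne_zero θ
  field_simp

theorem far_large {a z : ℂ} {R : ℝ} (hR : 2 * ‖a‖ + 1 ≤ R) (hz : R ≤ ‖z‖) :
    z - a ≠ 0 ∧ ‖z / (z - a)‖ ≤ 2 ∧ ‖z‖ / 2 ≤ ‖z - a‖ ∧ ‖z - a‖ ≤ 2 * ‖z‖ := by
  have ha := norm_nonneg a
  have h1 : ‖z‖ - ‖a‖ ≤ ‖z - a‖ := norm_sub_norm_le z a
  have h2 : ‖z - a‖ ≤ ‖z‖ + ‖a‖ := norm_sub_le z a
  have h3 : ‖z‖ / 2 ≤ ‖z - a‖ := by linarith
  have h4 : 0 < ‖z - a‖ := by linarith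
  refine ⟨norm_pos_iff.1 h4, ?_, h3, by linarith⟩
  rw [norm_div, div_le_iff₀ h4]
  linarith

theorem far_small {a z : ℂ} (ha0 : a ≠ 0) {r : ℝ} (hr : r ≤ ‖a‖ / 2) (hz : ‖z‖ ≤ r) :
    z - a ≠ 0 ∧ ‖a‖ / 2 ≤ ‖z - a‖ ∧ ‖z - a‖ ≤ 2 * ‖a‖ := by
  have ha := norm_pos_iff.2 ha0
  have h1 : ‖a‖ - ‖z‖ ≤ ‖z - a‖ := by
    rw [norm_sub_rev]
    exact norm_sub_norm_le a z
  have h2 : ‖z - a‖ ≤ ‖z‖ + ‖a‖ := norm_sub_le z a
  have h4 : 0 < ‖z - a‖ := by linarith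
  exact ⟨norm_pos_iff.1 h4, by linarith, by linarith⟩

theorem ratio {a b : ℂ} (ha : a ≠ 0) (hb : b ≠ 0) :
    ∃ C : ℝ, 0 ≤ C ∧ ∀ η : ℝ, 0 < η → ∃ R : ℝ, 1 ≤ R ∧ ∀ (D : ℕ) (Z : (Fin D → ℝ) → ℂ), Good Z →
      (∀ θ, R ≤ ‖Z θ‖ ∨ ‖Z θ‖ ≤ R⁻¹) →
        (∀ θ, Z θ - a ≠ 0 ∧ Z θ - b ≠ 0) ∧ Good (fun θ => (Z θ - a) / (Z θ - b)) ∧
        (∀ θ, |Real.log ‖(Z θ - a) / (Z θ - b)‖| ≤ C) ∧
        ∀ j θ, ‖lw (fun θ => (Z θ - a) / (Z θ - b)) j θ‖ ≤ η * ‖lw Z j θ‖ := by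
  have ha0 := norm_pos_iff.2 ha
  have hb0 := norm_pos_iff.2 hb
  have hlog2 : 0 < Real.log 2 := Real.log_pos one_lt_two
  refine ⟨2 * Real.log 2 + |Real.log ‖a‖| + |Real.log ‖b‖|, by positivity, fun η hη => ?_⟩
  set S : ℝ := 4 * ‖a - b‖ / η with hS
  have hS0 : 0 ≤ S := by positivity
  set T : ℝ := 4 * ‖a - b‖ / (‖a‖ * ‖b‖ * η) with hT
  have hT0 : 0 ≤ T := by positivity
  set R : ℝ := 1 + (2 * ‖a‖ + 1) + (2 * ‖b‖ + 1) + 2 / ‖a‖ + 2 / ‖b‖ + S + T with hR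
  have h2a : 0 < 2 / ‖a‖ := by positivity
  have h2b : 0 < 2 / ‖b‖ := by positivity
  have hR1 : 1 ≤ R := by rw [hR]; linarith
  have hR0 : 0 < R := by linarith
  refine ⟨R, hR1, fun D Z hZ hfar => ?_⟩
  have hia : R⁻¹ ≤ ‖a‖ / 2 := by
    rw [inv_le_comm₀ hR0 (by positivity), inv_div]
    rw [hR]; linarith
  have hib : R⁻¹ ≤ ‖b‖ / 2 := by
    rw [inv_le_comm₀ hR0 (by positivity), inv_div]
    rw [hR]; linarith
  have hne : ∀ θ, Z θ - a ≠ 0 ∧ Z θ - b ≠ 0 := by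
    intro θ
    rcases hfar θ with h | h
    · exact ⟨(far_large (a := a) (R := R) (by rw [hR]; linarith) h).1,
        (far_large (a := b) (R := R) (by rw [hR]; linarith) h).1⟩
    · exact ⟨(far_small ha hia h).1, (far_small hb hib h).1⟩
  have hga : Good fun θ => Z θ - a := ⟨hZ.smooth.sub contDiff_const, fun θ => (hne θ).1⟩
  have hgb : Good fun θ => Z θ - b := ⟨hZ.smooth.sub contDiff_const, fun θ => (hne θ).2⟩
  have hg : Good fun θ => (Z θ - a) / (Z θ - b) := by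
    refine ⟨?_, fun θ => div_ne_zero (hne θ).1 (hne θ).2⟩
    simp only [div_eq_mul_inv]
    exact hga.smooth.mul (hgb.smooth.inv fun θ => (hne θ).2)
  refine ⟨hne, hg, fun θ => ?_, fun j θ => ?_⟩
  · rw [norm_div, Real.log_div (norm_ne_zero_iff.2 (hne θ).1) (norm_ne_zero_iff.2 (hne θ).2)]
    have key : ∀ {x y c : ℝ}, 0 < x → 0 < y → 0 < c → c / 2 ≤ x → x ≤ 2 * c → c / 2 ≤ y →
        y ≤ 2 * c → |Real.log x - Real.log y| ≤ 2 * Real.log 2 := by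
      intro x y c hx hy hc h1 h2 h3 h4
      have e1 : Real.log (c / 2) ≤ Real.log x := Real.log_le_log (by positivity) h1
      have e2 : Real.log x ≤ Real.log (2 * c) := Real.log_le_log hx h2
      have e3 : Real.log (c / 2) ≤ Real.log y := Real.log_le_log (by positivity) h3
      have e4 : Real.log y ≤ Real.log (2 * c) := Real.log_le_log hy h4
      rw [Real.log_div hc.ne' two_ne_zero] at e1 e3
      rw [Real.log_mul two_ne_zero hc.ne'] at e2 e4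
      rw [abs_le]
      constructor <;> linarith
    have p1 := norm_pos_iff.2 (hne θ).1
    have p2 := norm_pos_iff.2 (hne θ).2
    rcases hfar θ with h | h
    · obtain ⟨-, -, c1, c2⟩ := far_large (a := a) (R := R) (by rw [hR]; linarith) h
      obtain ⟨-, -, d1, d2⟩ := far_large (a := b) (R := R) (by rw [hR]; linarith) h
      have := key p1 p2 (by linarith) c1 c2 d1 d2
      have q1 := abs_nonneg (Real.log ‖a‖)
      have q2 := abs_nonneg (Real.log ‖b‖)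
      linarith
    · obtain ⟨-, c1, c2⟩ := far_small ha hia h
      obtain ⟨-, d1, d2⟩ := far_small hb hib h
      have e1 : Real.log (‖a‖ / 2) ≤ Real.log ‖Z θ - a‖ := Real.log_le_log (by positivity) c1
      have e2 : Real.log ‖Z θ - a‖ ≤ Real.log (2 * ‖a‖) := Real.log_le_log p1 c2
      have e3 : Real.log (‖b‖ / 2) ≤ Real.log ‖Z θ - b‖ := Real.log_le_log (by positivity) d1
      have e4 : Real.log ‖Z θ - b‖ ≤ Real.log (2 * ‖b‖) := Real.log_le_log p2 d2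
      rw [Real.log_div ha0.ne' two_ne_zero] at e1
      rw [Real.log_div hb0.ne' two_ne_zero] at e3
      rw [Real.log_mul two_ne_zero ha0.ne'] at e2
      rw [Real.log_mul two_ne_zero hb0.ne'] at e4
      have q1 := abs_le.1 (le_refl |Real.log ‖a‖|)
      have q2 := abs_le.1 (le_refl |Real.log ‖b‖|)
      rw [abs_le]
      constructor <;> linarith [q1.1, q1.2, q2.1, q2.2]
  · have h1 := lw_mul hg hgb j θ
    have h2 : (fun θ => (Z θ - a) / (Z θ - b) * (Z θ - b)) = fun θ => Z θ - a := by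
      funext θ
      exact div_mul_cancel₀ _ (hne θ).2
    rw [h2, lw_sub_const hZ, lw_sub_const hZ] at h1
    have h3 : lw (fun θ => (Z θ - a) / (Z θ - b)) j θ =
        lw Z j θ * (Z θ * (a - b) / ((Z θ - a) * (Z θ - b))) := by
      have h4 : lw (fun θ => (Z θ - a) / (Z θ - b)) j θ =
          lw Z j θ * (Z θ / (Z θ - a)) - lw Z j θ * (Z θ / (Z θ - b)) := by
        linear_combination -h1
      rw [h4]
      have n1 := (hne θ).1
      have n2 := (hne θ).2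
      field_simp
      ring
    rw [h3, norm_mul, mul_comm]
    refine mul_le_mul_of_nonneg_right ?_ (norm_nonneg _)
    rw [norm_div, norm_mul, norm_mul]
    have p1 := norm_pos_iff.2 (hne θ).1
    have p2 := norm_pos_iff.2 (hne θ).2
    rw [div_le_iff₀ (mul_pos p1 p2)]
    rcases hfar θ with h | h
    · obtain ⟨-, -, c1, -⟩ := far_large (a := a) (R := R) (by rw [hR]; linarith) h
      obtain ⟨-, -, d1, -⟩ := far_large (a := b) (R := R) (by rw [hR]; linarith) h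
      have hz : 0 < ‖Z θ‖ := by linarith
      have e1 : ‖Z θ‖ / 2 * (‖Z θ‖ / 2) ≤ ‖Z θ - a‖ * ‖Z θ - b‖ :=
        mul_le_mul c1 d1 (by positivity) (by positivity)
      have e2 : S ≤ ‖Z θ‖ := by
        refine le_trans ?_ h
        rw [hR]; linarith
      rw [hS, div_le_iff₀ hη] at e2
      have e3 : ‖Z θ‖ * ‖a - b‖ ≤ η * (‖Z θ‖ / 2 * (‖Z θ‖ / 2)) := by nlinarith
      exact e3.trans (mul_le_mul_of_nonneg_left e1 hη.le)
    · obtain ⟨-, c1, -⟩ := far_small ha hia h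
      obtain ⟨-, d1, -⟩ := far_small hb hib h
      have e1 : ‖a‖ / 2 * (‖b‖ / 2) ≤ ‖Z θ - a‖ * ‖Z θ - b‖ :=
        mul_le_mul c1 d1 (by positivity) (by positivity)
      have e2 : ‖Z θ‖ * R ≤ 1 := by
        calc ‖Z θ‖ * R ≤ R⁻¹ * R := mul_le_mul_of_nonneg_right h hR0.le
          _ = 1 := inv_mul_cancel₀ hR0.ne'
      have e3 : ‖Z θ‖ * T ≤ 1 := by
        refine le_trans (mul_le_mul_of_nonneg_left ?_ (norm_nonneg _)) e2
        rw [hR]; linarith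
      have e4 : ‖Z θ‖ * (4 * ‖a - b‖) ≤ ‖a‖ * ‖b‖ * η := by
        rw [hT, mul_div_assoc', div_le_one (by positivity)] at e3
        exact e3
      have e5 : ‖Z θ‖ * ‖a - b‖ ≤ η * (‖a‖ / 2 * (‖b‖ / 2)) := by nlinarith
      exact e5.trans (mul_le_mul_of_nonneg_left e1 hη.le)

end Pool.Agent.L7h9.TS
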