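import Pool.Agent.L7h9.TS.Zed
import Pool.Agent.L7h9.TS.Ratio
import Pool.Agent.L7h9.TS.AsyG
set_option autoImplicit false

/-!
The regulators of the symbols `{u_1, ..., u_n, z_0, ..., z_s}` and of the symbols
`{x_1, ..., x_n, w_0, ..., w_s}`, `w_j = (z_j - a_j) / (z_j - b_j)`, on the tori in `W(z) = λ f` over a
torus of the base, for large `λ`.
-/

namespace Pool.Agent.L7h9.TS

open Filter Topology

open Pool.Agent.TH826.MK

open Pool.Agent.N65.TL

open Pool.Agent.L7h9.SU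

open Pool.Agent.L7h9.LT (lval lder)

theorem exists_lower {κ : Type*} [Finite κ] (δ : κ → ℝ) (h : ∀ a, 0 < δ a) :
    ∃ δ0 : ℝ, 0 < δ0 ∧ δ0 ≤ 1 ∧ ∀ a, δ0 ≤ δ a := by
  have := Fintype.ofFinite κ
  have hs0 : 0 ≤ ∑ a, (δ a)⁻¹ := Finset.sum_nonneg fun a _ => (inv_pos.2 (h a)).le
  refine ⟨(1 + ∑ a, (δ a)⁻¹)⁻¹, inv_pos.2 (by linarith), inv_le_one_of_one_le₀ (by linarith),
    fun a => ?_⟩
  rw [inv_le_comm₀ (by linarith) (h a)]
  have := Finset.single_le_sum (f := fun a => (δ a)⁻¹) (fun a _ => (inv_pos.2 (h a)).le)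
    (Finset.mem_univ a)
  linarith

theorem exists_upper {κ : Type*} [Finite κ] (T : κ → ℝ) : ∃ M : ℝ, 0 ≤ M ∧ ∀ a, T a ≤ M := by
  have := Fintype.ofFinite κ
  refine ⟨∑ a, |T a|, Finset.sum_nonneg fun a _ => abs_nonneg _, fun a => ?_⟩
  exact (le_abs_self _).trans (Finset.single_le_sum (f := fun a => |T a|)
    (fun a _ => abs_nonneg _) (Finset.mem_univ a))

section mk

variable {K A : Type*} [Field K] [CommRing A] {s n k : ℕ} {ι : K →+* A} {W : LP K (s + 1)} {g : A}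
  (γ : Torus A n) {Z : Fin (s + 1) → (Fin (n + s) → ℝ) → ℂ}
  (hZ : ∀ i, Good (Z i)) (hZp : ∀ i, Per (Z i))
  (heq : ∀ θ, lev ((γ.e (pul n s k θ)).comp ι) (uval hZ θ) W = γ.e (pul n s k θ) g)

theorem mkT_regG (u : Fin n → Aˣ) (w : Fin (s + 1) → (SRing ι W g)ˣ)
    {G : Fin (s + 1) → (Fin (n + s) → ℝ) → ℂ}
    (hG : ∀ j θ, (mkT γ k hZ hZp heq).e θ (w j : SRing ι W g) = G j θ) :
    (mkT γ k hZ hZp heq).reg (symb (Fin.append (m := n) (n := s + 1)
      (fun i => Units.map (sbase ι W g : A →* SRing ι W g) (u i)) w)) =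
      pairing (d := n + s) (Fin.append (m := n) (n := s + 1)
        (fun (i : Fin n) θ => γ.fn (u i : A) (pul n s k θ)) G) := by
  have h := (mkT γ k hZ hZp heq).reg_symb (Fin.append (m := n) (n := s + 1)
    (fun i => Units.map (sbase ι W g : A →* SRing ι W g) (u i)) w)
  refine h.trans ?_
  unfold Torus.pair
  congr 1
  funext l
  obtain ⟨x, rfl⟩ := (rE n s).surjective l
  rcases x with i | a
  · have e1 : Fin.append (m := n) (n := s + 1)
      (fun i => Units.map (sbase ι W g : A →* SRing ι W g) (u i)) w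
        (rE n s (Sum.inl i)) = Units.map (sbase ι W g : A →* SRing ι W g) (u i) :=
      Fin.append_left _ _ i
    have e2 : Fin.append (m := n) (n := s + 1)
        (fun (i : Fin n) θ => γ.fn (u i : A) (pul n s k θ)) G (rE n s (Sum.inl i)) =
        fun θ => γ.fn (u i : A) (pul n s k θ) := Fin.append_left _ _ i
    rw [e1, e2]
    funext θ
    exact mkT_sbase γ hZ hZp heq _ θ
  · have e1 : Fin.append (m := n) (n := s + 1)
      (fun i => Units.map (sbase ι W g : A →* SRing ι W g) (u i)) w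
        (rE n s (Sum.inr a)) = w a := Fin.append_right _ _ a
    have e2 : Fin.append (m := n) (n := s + 1)
        (fun (i : Fin n) θ => γ.fn (u i : A) (pul n s k θ)) G (rE n s (Sum.inr a)) = G a :=
      Fin.append_right _ _ a
    rw [e1, e2]
    funext θ
    exact hG a θ

end mk

variable {K A : Type*} [Field K] [CharZero K] [CommRing A] {s n : ℕ} {W : LP K (s + 1)}

/-- `w_j = (z_j - a_j) / (z_j - b_j)` -/
def IsRatio (ι : K →+* A) (W : LP K (s + 1)) (g : A) (a b : Fin (s + 1) → K)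
    (w : Fin (s + 1) → (SRing ι W g)ˣ) : Prop :=
  ∀ j, (w j : SRing ι W g) * ((sz ι W g j : SRing ι W g) - sbase ι W g (ι (b j))) =
    (sz ι W g j : SRing ι W g) - sbase ι W g (ι (a j))

theorem half (σ : K →+* ℂ) (ι : K →+* A) (f : Aˣ) (γ : Torus A n)
    (hγ : ∀ θ x, γ.e θ (ι x) = σ x) {al v : Fin (s + 1) → ℤ} (hv : W.coeff v ≠ 0)
    (hpos : 0 < dot al v) (hmax : ∀ m, W.coeff m ≠ 0 → m ≠ v → dot al m < dot al v)
    (hal : ∀ j, al j ≠ 0) (i0 : Fin (s + 1)) {κ μ : Type*} [Finite κ] [Finite μ]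
    (u : κ → Fin n → Aˣ) (x : Fin n → Aˣ) (a b : μ → Fin (s + 1) → K) (ha : ∀ l j, a l j ≠ 0)
    (hb : ∀ l j, b l j ≠ 0) {ε : ℝ} (hε : 0 < ε) :
    ∃ Λ0 : ℝ, 1 < Λ0 ∧ ∀ lam : K, Λ0 ≤ ‖σ lam‖ →
      ∃ Γ : Torus (SRing ι W (ι lam * f)) (n + s),
        (∀ θ x, Γ.e θ (sbase ι W (ι lam * f) (ι x)) = σ x) ∧
        (∀ θ, ∃ i, lder σ W (fun j => Γ.e θ (sz ι W (ι lam * f) j : SRing ι W (ι lam * f))) i
          ≠ 0) ∧
        (∀ k, |Γ.reg (symb (Fin.append (m := n) (n := s + 1) (fun i => Units.map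
            (sbase ι W (ι lam * f) : A →* SRing ι W (ι lam * f)) (u k i))
            (sz ι W (ι lam * f)))) / Real.log ‖σ lam‖ -
          SU.cst n s (dot al v).toNat * (zmat al v i0).det *
            γ.reg (byTwo ι (symb (u k)))| ≤ ε) ∧
        (∀ l (w : Fin (s + 1) → (SRing ι W (ι lam * f))ˣ), IsRatio ι W _ (a l) (b l) w →
          |Γ.reg (symb (Fin.append (m := n) (n := s + 1) (fun i => Units.map
            (sbase ι W (ι lam * f) : A →* SRing ι W (ι lam * f)) (x i)) w)) /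
              Real.log ‖σ lam‖| ≤ ε) := by
  classical
  have hpi := Real.pi_pos
  set k : ℕ := (dot al v).toNat with hk
  have hkz : (k : ℤ) = dot al v := Int.toNat_of_nonneg hpos.le
  have hk0 : 0 < k := by omega
  have hdR : (0 : ℝ) < (dot al v : ℤ) := by exact_mod_cast hpos
  set c : Fin (s + 1) → ℝ := fun j => (al j : ℝ) / (dot al v : ℤ) with hc
  have hc0 : ∀ j, 0 < |c j| := fun j => by
    rw [abs_pos]
    exact div_ne_zero (by exact_mod_cast hal j) hdR.ne'
  obtain ⟨cm, hcm0, hcm1, hcm⟩ := exists_lower (fun j => |c j|) hc0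
  obtain ⟨B, hB, hZed⟩ := exists_Z (W := W) σ ι f γ hγ hv hpos hmax i0
  -- the asymptotics of the symbols of the first kind
  choose δ T0 hδ hT0 hasy using fun k' => asyG (s := s) hk0 (u := fun i => γ.fn (u k' i : A))
    (fun i => γ.good _) (fun i => γ.per _) c (fun l j => (bdir v i0 l j : ℝ)) hB hε
  obtain ⟨δ0, hδ0, hδ01, hδ0le⟩ := exists_lower δ hδ
  obtain ⟨T1, hT10, hT1⟩ := exists_upper T0
  -- the symbols of the second kind
  obtain ⟨δ', T', hδ', hT', hasy'⟩ := asyG (s := s) hk0 (u := fun i => γ.fn (x i : A))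
    (fun i => γ.good _) (fun i => γ.per _) (fun _ => 0) (fun _ _ => 0) hB hε
  have hdet0 : (zm (fun _ : Fin (s + 1) => (0 : ℝ)) fun (_ : Fin s) _ => 0).det = 0 := by
    refine Matrix.det_eq_zero_of_row_eq_zero 0 fun j => ?_
    unfold zm
    rw [Matrix.of_apply]
    refine Fin.cases rfl (fun _ => rfl) j
  rw [hdet0] at hasy'
  obtain ⟨Bd, hBd0, hBd⟩ := exists_upper fun p : Fin s × Fin (s + 1) =>
    ‖(2 * Real.pi * Complex.I * ((bdir v i0 p.1 p.2 : ℝ) : ℂ))‖
  obtain ⟨η, hη0, hη1, hη⟩ : ∃ η : ℝ, 0 < η ∧ η ≤ 1 ∧ η * (Bd + 1) ≤ δ' := by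
    refine ⟨min 1 (δ' / (Bd + 1)), lt_min one_pos (by positivity), min_le_left _ _, ?_⟩
    calc min 1 (δ' / (Bd + 1)) * (Bd + 1) ≤ δ' / (Bd + 1) * (Bd + 1) :=
          mul_le_mul_of_nonneg_right (min_le_right _ _) (by linarith)
      _ = δ' := div_mul_cancel₀ _ (by linarith)
  choose Cr hCr0 hCr using fun p : μ × Fin (s + 1) =>
    ratio (a := σ (a p.1 p.2)) (b := σ (b p.1 p.2)) ((map_ne_zero σ).2 (ha _ _))
      ((map_ne_zero σ).2 (hb _ _))
  choose Rr hRr1 hRr using fun p => hCr p η hη0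
  obtain ⟨C1, hC10, hC1⟩ := exists_upper Cr
  obtain ⟨R1, hR10, hR1⟩ := exists_upper Rr
  set R2 : ℝ := R1 + 1 with hR2
  have hlogR : 0 ≤ Real.log R2 := Real.log_nonneg (by linarith)
  set δ1 : ℝ := min δ0 (cm / 2) with hδ1
  have hδ1pos : 0 < δ1 := lt_min hδ0 (by linarith)
  obtain ⟨Λ1, hΛ1, hmain⟩ := hZed δ1 hδ1pos
  set M : ℝ := T1 + T' + C1 / δ' + 2 * Real.log R2 / cm + 1 with hM
  have hM1 : 0 ≤ C1 / δ' := by positivity
  have hM2 : 0 ≤ 2 * Real.log R2 / cm := by positivity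
  refine ⟨max Λ1 (Real.exp M), lt_of_lt_of_le hΛ1 (le_max_left _ _), fun lam hlam => ?_⟩
  obtain ⟨Z, hZ, hZp, heq, hder, hlog, hlw1, hlw2⟩ := hmain lam ((le_max_left _ _).trans hlam)
  have hln : 0 < ‖σ lam‖ := lt_of_lt_of_le (Real.exp_pos M) ((le_max_right _ _).trans hlam)
  set t : ℝ := Real.log ‖σ lam‖ with ht
  have htM : M ≤ t := by
    rw [ht, Real.le_log_iff_exp_le hln]
    exact (le_max_right _ _).trans hlam
  have htpos : 0 < t := by linarith
  have hcomp : ∀ θ, (γ.e θ).comp ι = σ := fun θ => RingHom.ext fun x => hγ θ x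
  refine ⟨mkT γ k hZ hZp heq, fun θ x => by rw [mkT_sbase, hγ], fun θ => ?_, fun k' => ?_,
    fun l w hw => ?_⟩
  · have e1 : (fun j => (mkT γ k hZ hZp heq).e θ
        (sz ι W (ι lam * (f : A)) j : SRing ι W (ι lam * (f : A)))) = fun j => Z j θ :=
      funext fun j => mkT_sz γ hZ hZp heq j θ
    rw [e1]
    exact hder θ
  · rw [mkT_regG γ hZ hZp heq (u k') (sz ι W (ι lam * (f : A))) (G := Z)
      (fun j θ => mkT_sz γ hZ hZp heq j θ), reg_byTwo hγ]
    have e1 : zmat al v i0 = zm c fun l j => (bdir v i0 l j : ℝ) := rfl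
    rw [e1]
    refine hasy k' Z t ((hT1 k').trans (by linarith)) hZ (fun j θ => ?_) (fun j l θ => ?_) hlw2
    · exact (hlog j θ).trans ((min_le_left _ _).trans (hδ0le k'))
    · exact (hlw1 j l θ).trans ((min_le_left _ _).trans (hδ0le k'))
  · -- the size of the `z_j`
    have hfar : ∀ j θ, R2 ≤ ‖Z j θ‖ ∨ ‖Z j θ‖ ≤ R2⁻¹ := by
      intro j θ
      have h1 := hlog j θ
      have h2 : δ1 ≤ |c j| / 2 := (min_le_right _ _).trans (by linarith [hcm j])
      have h3 : Real.log R2 ≤ t * (|c j| / 2) := by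
        have h4 : 2 * Real.log R2 / cm ≤ t := by linarith
        rw [div_le_iff₀ hcm0] at h4
        have h5 : t * cm ≤ t * |c j| := mul_le_mul_of_nonneg_left (hcm j) htpos.le
        linarith
      have hz := norm_pos_iff.2 ((hZ j).ne_zero θ)
      have hR2pos : 0 < R2 := by linarith
      have h6 := abs_le.1 (h1.trans h2)
      rcases le_total 0 (c j) with hcj | hcj
      · left
        rw [abs_of_nonneg hcj] at h3 h6
        have h7 : c j / 2 ≤ Real.log ‖Z j θ‖ / t := by linarith [h6.1]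
        rw [le_div_iff₀ htpos] at h7
        have h8 : Real.log R2 ≤ Real.log ‖Z j θ‖ := by linarith
        exact (Real.log_le_log_iff hR2pos hz).1 h8
      · right
        rw [abs_of_nonpos hcj] at h3 h6
        have h7 : Real.log ‖Z j θ‖ / t ≤ c j / 2 := by linarith [h6.2]
        rw [div_le_iff₀ htpos] at h7
        have h8 : Real.log ‖Z j θ‖ ≤ Real.log R2⁻¹ := by
          rw [Real.log_inv]
          linarith
        exact (Real.log_le_log_iff hz (inv_pos.2 hR2pos)).1 h8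
    have hfar' : ∀ j θ, Rr (l, j) ≤ ‖Z j θ‖ ∨ ‖Z j θ‖ ≤ (Rr (l, j))⁻¹ := by
      intro j θ
      have h1 : Rr (l, j) ≤ R2 := (hR1 _).trans (by linarith)
      rcases hfar j θ with h | h
      · exact Or.inl (h1.trans h)
      · refine Or.inr (h.trans ?_)
        exact inv_anti₀ (by linarith [hRr1 (l, j)]) h1
    set G : Fin (s + 1) → (Fin (n + s) → ℝ) → ℂ := fun j θ =>
      (Z j θ - σ (a l j)) / (Z j θ - σ (b l j)) with hG
    have hrat := fun j => hRr (l, j) (n + s) (Z j) (hZ j) (hfar' j)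
    have hGe : ∀ j θ, (mkT γ k hZ hZp heq).e θ (w j : SRing ι W (ι lam * (f : A))) = G j θ := by
      intro j θ
      have h1 := congrArg ((mkT γ k hZ hZp heq).e θ) (hw j)
      rw [map_mul, map_sub, map_sub, mkT_sz, mkT_sbase, mkT_sbase, hγ, hγ] at h1
      exact eq_div_of_mul_eq ((hrat j).1 θ).2 h1
    rw [mkT_regG γ hZ hZp heq x w hGe]
    have h9 := hasy' G t (by linarith) (fun j => (hrat j).2.1) (fun j θ => ?_)
      (fun j l' θ => ?_) (fun j i θ => ?_)
    · rw [mul_zero, zero_mul, sub_zero] at h9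
      exact h9
    · rw [sub_zero, abs_div, abs_of_pos htpos, div_le_iff₀ htpos]
      have h1 := (hrat j).2.2.1 θ
      have h2 : C1 / δ' ≤ t := by linarith
      rw [div_le_iff₀ hδ'] at h2
      have h3 := hC1 (l, j)
      have h4 : |Real.log ‖G j θ‖| ≤ Cr (l, j) := h1
      linarith
    · rw [Complex.ofReal_zero, mul_zero, sub_zero]
      have h1 := (hrat j).2.2.2 (Fin.natAdd n l') θ
      refine h1.trans ?_
      have h2 := hlw1 j l' θ
      have h3 := hBd (l', j)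
      have h4 : ‖lw (Z j) (Fin.natAdd n l') θ‖ ≤ Bd + 1 := by
        have h5 : ‖lw (Z j) (Fin.natAdd n l') θ‖ ≤
            ‖lw (Z j) (Fin.natAdd n l') θ - 2 * Real.pi * Complex.I *
              ((bdir v i0 l' j : ℝ) : ℂ)‖ +
            ‖2 * Real.pi * Complex.I * ((bdir v i0 l' j : ℝ) : ℂ)‖ := by
          have e : lw (Z j) (Fin.natAdd n l') θ =
            (lw (Z j) (Fin.natAdd n l') θ - 2 * Real.pi * Complex.I *
              ((bdir v i0 l' j : ℝ) : ℂ)) +
            2 * Real.pi * Complex.I * ((bdir v i0 l' j : ℝ) : ℂ) := by ring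
          conv_lhs => rw [e]
          exact norm_add_le _ _
        have h6 : δ1 ≤ 1 := (min_le_left _ _).trans hδ01
        have h7 : ‖2 * Real.pi * Complex.I * ((bdir v i0 l' j : ℝ) : ℂ)‖ ≤ Bd := h3
        linarith
      exact (mul_le_mul_of_nonneg_left h4 hη0.le).trans hη
    · have h1 := (hrat j).2.2.2 (Fin.castAdd s i) θ
      refine h1.trans ?_
      calc η * ‖lw (Z j) (Fin.castAdd s i) θ‖ ≤ 1 * ‖lw (Z j) (Fin.castAdd s i) θ‖ :=
            mul_le_mul_of_nonneg_right hη1 (norm_nonneg _)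
        _ ≤ B := by rw [one_mul]; exact hlw2 j i θ

end Pool.Agent.L7h9.TS
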