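import Pool.Agent.L7h9.TS.Defs
set_option autoImplicit false

/-!
Points of the open part `V ≠ 0` of the torus.
-/

namespace Pool.Agent.L7h9.TS

open Pool.Agent.TH826.MK

open Pool.Agent.N65.TL

open Pool.Agent.L7h9.SU

section points

variable {K S : Type*} [Field K] [CommRing S] {n : ℕ}

theorem lev_lin (c : K →+* S) (x : Fin (n + 1) → Sˣ) (j : Fin (n + 1)) (a : K) :
    lev c x (lin j a) = x j - c a := by
  unfold lin
  rw [map_sub]
  have h1 : ((zlau j : (LP K (n + 1))ˣ) : LP K (n + 1)) =
      AddMonoidAlgebra.single (Pi.single j 1) 1 := rfl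
  have h2 : (AddMonoidAlgebra.singleZeroRingHom a : LP K (n + 1)) =
      AddMonoidAlgebra.single 0 a := rfl
  rw [h1, h2, lev_single, lev_single, map_one, one_mul, mon_single, mon_zero, Units.val_one,
    mul_one]

variable {V : LP K (n + 1)}

/-- A point of the open part `V ≠ 0` of the torus. -/
noncomputable def bpt (c : K →+* S) (x : Fin (n + 1) → Sˣ) (h : IsUnit (lev c x V)) : Bs V →+* S :=
  IsLocalization.Away.lift V (g := lev c x) h

theorem bpt_bmap (c : K →+* S) (x : Fin (n + 1) → Sˣ) (h : IsUnit (lev c x V))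
    (P : LP K (n + 1)) : bpt c x h (bmap V P) = lev c x P := IsLocalization.Away.lift_eq _ _ _

theorem bpt_bcst (c : K →+* S) (x : Fin (n + 1) → Sˣ) (h : IsUnit (lev c x V)) (a : K) :
    bpt c x h (bcst V a) = c a := by
  unfold bcst
  rw [RingHom.comp_apply, bpt_bmap]
  have h2 : (AddMonoidAlgebra.singleZeroRingHom a : LP K (n + 1)) =
      AddMonoidAlgebra.single 0 a := rfl
  rw [h2, lev_single, mon_zero, Units.val_one, mul_one]

theorem bpt_comp (c : K →+* S) (x : Fin (n + 1) → Sˣ) (h : IsUnit (lev c x V)) :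
    (bpt c x h).comp (bcst V) = c := RingHom.ext fun a => bpt_bcst c x h a

theorem bpt_bx (c : K →+* S) (x : Fin (n + 1) → Sˣ) (h : IsUnit (lev c x V)) (j : Fin (n + 1)) :
    bpt c x h (bx V j : Bs V) = x j := by
  have h1 : (bx V j : Bs V) = bmap V (AddMonoidAlgebra.single (Pi.single j 1) 1) := rfl
  rw [h1, bpt_bmap, lev_single, map_one, one_mul, mon_single]

theorem bpt_bV (c : K →+* S) (x : Fin (n + 1) → Sˣ) (h : IsUnit (lev c x V)) :
    bpt c x h (bV V : Bs V) = lev c x V := by rw [bV_coe, bpt_bmap]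

/-- Homomorphisms from the ring of the open part are given by points. -/
theorem hom_bmap (F : Bs V →+* S) (P : LP K (n + 1)) :
    F (bmap V P) = lev (F.comp (bcst V)) (fun j => Units.map (F : Bs V →* S) (bx V j)) P := by
  have h := hom_eq_lev (F.comp (bmap V)) P
  rw [RingHom.comp_apply] at h
  exact h

end points

end Pool.Agent.L7h9.TS
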