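import Pool.Agent.L7h9.TS.Tori
set_option autoImplicit false

/-!
The open parts of the hypersurfaces `W(z) = λ V(x)` are smooth for large and for small `λ`.
-/

namespace Pool.Agent.L7h9.TS

open MvPolynomial

open Pool.Agent.N65.TL

open Pool.Agent.L7h9.LT

section crit

variable {s : ℕ} {K : Type*} [Field K]

/-- The set of the critical values of a Laurent polynomial on the torus is finite. -/
theorem exists_crit_set (σ : K →+* ℂ) (W : LP K (s + 1)) :
    ∃ S : Finset ℂ, ∀ z : Fin (s + 1) → ℂ, (∀ i, z i ≠ 0) → lval σ W z ≠ 0 →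
      (∀ i, lder σ W z i = 0) → lval σ W z ∈ S := by
  classical
  obtain ⟨a, ha⟩ := exists_shift W
  obtain ⟨D, hD0, hD⟩ := Pool.Agent.Y797.GC.exists_crit (aF σ W a)
  refine ⟨D.roots.toFinset, fun z hz hw0 hcon => ?_⟩
  set w : ℂ := lval σ W z with hw
  set p := ap a w z with hp
  have hy := inv_mul_prod (a := a) hz
  -- the Euler derivations
  have hpne : ∀ o, p o ≠ 0 := by
    intro o
    rcases o with _ | _ | i
    · exact neg_ne_zero.2 hw0
    · exact Finset.prod_ne_zero_iff.2 fun i _ => inv_ne_zero (pow_ne_zero _ (hz i))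
    · exact hz i
  have hm1 : ∀ m ∈ W.coeff.support, ∀ r : ℂ,
      MvPolynomial.eval p (monomial (ax a 0 1 m) r) = r * ∏ i, z i ^ (m i) := by
    intro m hm r
    rw [hp, eval_ax a 0 1 hz r (ha m hm), pow_zero, one_mul, pow_one,
      ← mul_assoc (∏ i, (z i ^ a)⁻¹), hy, one_mul]
  have hm2 : ∀ r : ℂ, MvPolynomial.eval p (monomial (ax a 1 1 0) r) = r * -w := by
    intro r
    rw [hp, eval_ax a 1 1 hz r (fun i => by simp)]
    simp only [pow_one, Pi.zero_apply, zpow_zero, Finset.prod_const_one, mul_one]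
    rw [hy, mul_one]
  have hm3 : ∀ r : ℂ, MvPolynomial.eval p (monomial (Finsupp.single none 1) r) = r * -w := by
    intro r
    rw [MvPolynomial.eval_monomial, Finsupp.prod_single_index
      (h := fun n e => p n ^ e) (pow_zero _), pow_one]
    rfl
  have hval : MvPolynomial.eval p (aF σ W a) = w := by
    unfold aF
    rw [map_add, map_sub, map_sum, hm2, hm3, sub_self, add_zero, hw]
    exact Finset.sum_congr rfl fun m hm => hm1 m hm _
  have hder : ∀ o, MvPolynomial.eval p (pderiv o (aF σ W a)) = 0 := by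
    intro o
    have h1 : MvPolynomial.eval p (X o * pderiv o (aF σ W a)) = 0 := by
      have h2 : X o * pderiv o (aF σ W a) =
          ∑ m ∈ W.coeff.support, (ax a 0 1 m) o • monomial (ax a 0 1 m) (σ (W.coeff m)) +
          ((ax a 1 1 (0 : Fin (s + 1) → ℤ)) o • monomial (ax a 1 1 0) 1 -
            (Finsupp.single none 1 : Option (Option (Fin (s + 1))) →₀ ℕ) o •
              monomial (Finsupp.single none 1) 1) := by
        unfold aF
        rw [map_add, map_sub, map_sum, mul_add, mul_sub, Finset.mul_sum]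
        simp only [X_mul_pderiv_monomial]
      rw [h2, map_add, map_sub, map_sum]
      simp only [map_nsmul, hm2, hm3]
      have h3 : ∑ m ∈ W.coeff.support, (ax a 0 1 m) o •
          MvPolynomial.eval p (monomial (ax a 0 1 m) (σ (W.coeff m))) =
          ∑ m ∈ W.coeff.support, (ax a 0 1 m) o • (σ (W.coeff m) * ∏ i, z i ^ (m i)) :=
        Finset.sum_congr rfl fun m hm => by rw [hm1 m hm]
      rw [h3]
      rcases o with _ | _ | i
      · have e1 : ∀ m : Fin (s + 1) → ℤ, (ax a 0 1 m) none = 0 := fun _ => rfl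
        have e2 : (ax a 1 1 (0 : Fin (s + 1) → ℤ)) none = 1 := rfl
        simp only [e1, e2, zero_smul, Finset.sum_const_zero, Finsupp.single_eq_same, one_smul]
        ring
      · have e1 : ∀ m : Fin (s + 1) → ℤ, (ax a 0 1 m) (some none) = 1 := fun _ => rfl
        have e2 : (ax a 1 1 (0 : Fin (s + 1) → ℤ)) (some none) = 1 := rfl
        have e3 : (Finsupp.single none 1 : Option (Option (Fin (s + 1))) →₀ ℕ) (some none) = 0 :=
          by simp
        simp only [e1, e2, e3, zero_smul, one_smul]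
        have e4 : ∑ m ∈ W.coeff.support, σ (W.coeff m) * ∏ i, z i ^ (m i) = w := rfl
        rw [e4]
        ring
      · have e1 : ∀ m ∈ W.coeff.support, (((ax a 0 1 m) (some (some i)) : ℕ) : ℂ) =
            (m i : ℂ) + a := by
          intro m hm
          show (((m i + a).toNat : ℕ) : ℂ) = _
          have := Int.toNat_of_nonneg (ha m hm i)
          have h5 : (((m i + a).toNat : ℤ) : ℂ) = ((m i + a : ℤ) : ℂ) := by rw [this]
          push_cast at h5
          exact h5
        have e2 : (ax a 1 1 (0 : Fin (s + 1) → ℤ)) (some (some i)) = a := by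
          show ((0 : ℤ) + a).toNat = a
          simp
        have e3 : (Finsupp.single none 1 : Option (Option (Fin (s + 1))) →₀ ℕ)
          (some (some i)) = 0 := by simp
        rw [e2, e3, zero_smul, sub_zero]
        simp only [nsmul_eq_mul]
        have e4 : ∑ m ∈ W.coeff.support, (((ax a 0 1 m) (some (some i)) : ℕ) : ℂ) *
            (σ (W.coeff m) * ∏ i, z i ^ (m i)) = lder σ W z i + a * w := by
          have e5 : w = ∑ m ∈ W.coeff.support, σ (W.coeff m) * ∏ i, z i ^ (m i) := rfl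
          rw [e5, Finset.mul_sum]
          unfold lder
          rw [← Finset.sum_add_distrib]
          refine Finset.sum_congr rfl fun m hm => ?_
          rw [e1 m hm]
          ring
        rw [e4, hcon i]
        ring
    rw [map_mul, MvPolynomial.eval_X] at h1
    exact (mul_eq_zero.1 h1).resolve_left (hpne o)
  have h0 : D.eval w = 0 := by
    rw [← hval, ← Pool.Agent.Y797.GC.eval_aeval]
    have h1 : ∀ q ∈ Ideal.span (Set.range fun i => MvPolynomial.pderiv i (aF σ W a)),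
        MvPolynomial.eval p q = 0 := by
      intro q hq
      have h2 : Ideal.span (Set.range fun i => MvPolynomial.pderiv i (aF σ W a)) ≤
          RingHom.ker (MvPolynomial.eval p) := by
        rw [Ideal.span_le]
        rintro _ ⟨o, rfl⟩
        exact hder o
      exact h2 hq
    exact h1 _ hD
  rw [Multiset.mem_toFinset, Polynomial.mem_roots hD0]
  exact h0

/-- The nonzero critical values of a Laurent polynomial on the torus are bounded from above and
from below. -/
theorem exists_crit_bounds (σ : K →+* ℂ) (W : LP K (s + 1)) :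
    ∃ B ε : ℝ, 0 < B ∧ 0 < ε ∧ ∀ z : Fin (s + 1) → ℂ, (∀ i, z i ≠ 0) → lval σ W z ≠ 0 →
      (∀ i, lder σ W z i = 0) → ε ≤ ‖lval σ W z‖ ∧ ‖lval σ W z‖ ≤ B := by
  classical
  obtain ⟨S, hS⟩ := exists_crit_set σ W
  obtain ⟨B, hB⟩ : ∃ B : ℝ, ∀ c ∈ S, ‖c‖ ≤ B :=
    ⟨∑ c ∈ S, ‖c‖, fun c hc =>
      Finset.single_le_sum (f := fun c => ‖c‖) (fun _ _ => norm_nonneg _) hc⟩
  obtain ⟨A, hA⟩ : ∃ A : ℝ, ∀ c ∈ S, ‖c‖⁻¹ ≤ A :=
    ⟨∑ c ∈ S, ‖c‖⁻¹, fun c hc =>
      Finset.single_le_sum (f := fun c => ‖c‖⁻¹) (fun _ _ => inv_nonneg.2 (norm_nonneg _)) hc⟩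
  refine ⟨|B| + 1, (|A| + 1)⁻¹, by positivity, by positivity, fun z hz h0 hcon => ?_⟩
  have h1 := hS z hz h0 hcon
  have h2 := hB _ h1
  have h3 := hA _ h1
  have h4 : 0 < ‖lval σ W z‖ := norm_pos_iff.2 h0
  refine ⟨?_, by linarith [le_abs_self B]⟩
  rw [inv_le_comm₀ (by positivity) h4]
  linarith [le_abs_self A]

end crit

section smooth

variable {s n : ℕ} {K : Type*} [Field K]

/-- The hypersurfaces are smooth at all points with `V ≠ 0` for large and for small `λ`. -/
theorem exists_smoothS (σ : K →+* ℂ) (W : LP K (s + 1)) (V : LP K (n + 1)) :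
    ∃ C : ℝ, 1 < C ∧ ∀ lam : Kˣ, (C ≤ ‖σ lam‖ ∨ C ≤ ‖σ (lam⁻¹ : Kˣ)‖) →
      ∀ (z : Fin (s + 1) → ℂ) (x : Fin (n + 1) → ℂ), (∀ i, z i ≠ 0) → (∀ j, x j ≠ 0) →
      lval σ W z = σ lam * lval σ V x → lval σ V x ≠ 0 →
      (∃ i, lder σ W z i ≠ 0) ∨ ∃ j, lder σ V x j ≠ 0 := by
  obtain ⟨B, ε, hB, hε, h⟩ := exists_crit_bounds σ W
  obtain ⟨B', ε', hB', hε', h'⟩ := exists_crit_bounds σ V
  refine ⟨2 + B / ε' + B' / ε, by
    have h1 : 0 < B / ε' := by positivity
    have h2 : 0 < B' / ε := by positivity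
    linarith, fun lam hlam z x hz hx heq hne => ?_⟩
  by_contra hcon
  push Not at hcon
  have hl0 : σ lam ≠ 0 := by
    rw [map_ne_zero]
    exact lam.ne_zero
  obtain ⟨a1, a2⟩ := h z hz (by rw [heq]; exact mul_ne_zero hl0 hne) hcon.1
  obtain ⟨b1, b2⟩ := h' x hx hne hcon.2
  have h3 : ‖lval σ W z‖ = ‖σ lam‖ * ‖lval σ V x‖ := by rw [heq, norm_mul]
  have c1 : 0 < B / ε' := by positivity
  have c2 : 0 < B' / ε := by positivity
  rcases hlam with hlam | hlam
  · have h4 : (B / ε' + 2) * ε' ≤ ‖σ lam‖ * ‖lval σ V x‖ :=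
      mul_le_mul (by linarith) b1 hε'.le (norm_nonneg _)
    rw [add_mul, div_mul_cancel₀ _ hε'.ne'] at h4
    linarith
  · have h5 : ‖lval σ V x‖ = ‖σ (lam⁻¹ : Kˣ)‖ * ‖lval σ W z‖ := by
      rw [h3, ← mul_assoc, ← norm_mul, ← map_mul, Units.inv_mul, map_one, norm_one, one_mul]
    have h4 : (B' / ε + 2) * ε ≤ ‖σ (lam⁻¹ : Kˣ)‖ * ‖lval σ W z‖ :=
      mul_le_mul (by linarith) a1 hε.le (norm_nonneg _)
    rw [add_mul, div_mul_cancel₀ _ hε.ne'] at h4
    linarith

end smooth

section units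

open NumberField

variable {K : Type*} [Field K] [NumberField K]

/-- A unit which is not a root of unity is large at one place and small at another place. -/
theorem exists_places {e : Kˣ} (h1 : IsIntegral ℤ (e : K)) (h2 : IsIntegral ℤ ((e⁻¹ : Kˣ) : K))
    (h : ∀ k : ℕ, k ≠ 0 → e ^ k ≠ 1) :
    ∃ σ τ : K →+* ℂ, 1 < ‖σ e‖ ∧ 1 < ‖τ (e⁻¹ : Kˣ)‖ := by
  have key : ∀ u : Kˣ, IsIntegral ℤ (u : K) → (∀ k : ℕ, k ≠ 0 → u ^ k ≠ 1) →
      ∃ σ : K →+* ℂ, 1 < ‖σ u‖ := by
    intro u hu hk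
    by_contra hcon
    push Not at hcon
    obtain ⟨m, hm, hm1⟩ := NumberField.Embeddings.pow_eq_one_of_norm_le_one (K := K) (A := ℂ)
      (x := (u : K)) u.ne_zero hu hcon
    exact hk m (by omega) (Units.ext (by rw [Units.val_pow_eq_pow_val, hm1, Units.val_one]))
  obtain ⟨σ, hσ⟩ := key e h1 h
  obtain ⟨τ, hτ⟩ := key e⁻¹ h2 fun k hk h3 => h k hk (by
    rw [inv_pow, inv_eq_one] at h3
    exact h3)
  exact ⟨σ, τ, hσ, hτ⟩

end units

end Pool.Agent.L7h9.TS
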