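import Pool.Agent.L7h9.TS.Cls
set_option autoImplicit false

/-!
The classes on the hypersurfaces `W(z) = λ V(x)` are unramified if `λ` is a unit.
-/

namespace Pool.Agent.L7h9.TS

open scoped WithZero

open Pool.Agent.TH826.MK

open Pool.Agent.N65.TL

open Pool.Agent.L7h9.SU

section perm

variable {L : Type*} [Field L]

theorem symb_perm {N : ℕ} (e : Equiv.Perm (Fin N)) (a : Fin N → Lˣ) :
    ∃ c : ℤ, symb (a ∘ e) = c • symb a := by
  have h := symb_mon a (p := id) Function.injective_id fun i => Pi.single (e i) 1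
  refine ⟨(Matrix.of fun i => Pi.single (e i) (1 : ℤ)).det, ?_⟩
  rw [← h]
  congr 1
  funext l
  have h1 := Function.injective_id.extend_apply
    (fun i => mon (fun j => a (id j)) (Pi.single (e i) 1)) a l
  rw [id] at h1
  rw [h1, mon_single]
  rfl

theorem reindex_unitPart (v : Valuation L ℤᵐ⁰) {M N : ℕ} (e : Fin M ≃ Fin N) (a : Fin N → Lˣ)
    (h : symb a ∈ unitPart v N) : symb (a ∘ e) ∈ unitPart v M := by
  have hMN : M = N := by simpa using Fintype.card_congr e
  subst hMN
  obtain ⟨c, hc⟩ := symb_perm e a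
  rw [hc, ← Int.cast_smul_eq_zsmul ℚ]
  exact Submodule.smul_mem _ _ h

theorem reindex_unramified {M N : ℕ} (e : Fin M ≃ Fin N) (a : Fin N → Lˣ)
    (h : symb a ∈ Unramified L N) : symb (a ∘ e) ∈ Unramified L M := by
  unfold Unramified at h ⊢
  simp only [Submodule.mem_iInf] at h ⊢
  exact fun v hv => reindex_unitPart v e a (h v hv)

theorem append_flip {α : Type*} {m n : ℕ} (a : Fin m → α) (b : Fin n → α) :
    Fin.append a b = Fin.append b a ∘ (finAddFlip : Fin (m + n) ≃ Fin (n + m)) := by
  funext l
  refine Fin.addCases (fun i => ?_) (fun i => ?_) l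
  · rw [Fin.append_left, Function.comp_apply, finAddFlip_apply_castAdd, Fin.append_right]
  · rw [Fin.append_right, Function.comp_apply, finAddFlip_apply_natAdd, Fin.append_left]

end perm

section tempered

variable {K : Type*} [Field K] {n : ℕ} {Q : Marked K n}

theorem lev_le_one {L : Type*} [Field L] (c : K →+* L) (v : Valuation L ℤᵐ⁰)
    {x : Fin (n + 1) → Lˣ} (hx : ∀ j, v (x j : L) = 1) {G : LP K (n + 1)} (hG : Integral G) :
    v (lev c x G) ≤ 1 := by
  rw [lev_eq]
  refine Valuation.map_sum_le v fun m _ => ?_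
  have h1 : v ((mon x m : Lˣ) : L) = 1 := by
    unfold mon
    rw [Units.coe_prod, map_prod]
    refine Finset.prod_eq_one fun j _ => ?_
    rw [Units.val_zpow_eq_zpow_val, map_zpow₀, hx, one_zpow]
  rw [map_mul, h1, mul_one]
  exact val_le_one_of_integral v (map_isIntegral_int c (hG m))

theorem isIntegral_of_root {c : K} (h : ∃ k : ℕ, k ≠ 0 ∧ c ^ k = 1) : IsIntegral ℤ c := by
  obtain ⟨k, hk, h1⟩ := h
  exact IsIntegral.of_pow (Nat.pos_of_ne_zero hk) (by rw [h1]; exact isIntegral_one)

/-- The symbols `{u_0, ..., u_n}` are tempered with respect to `W`. -/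
theorem bu_tempered.{u, v} {K : Type u} [Field K] {n : ℕ} {Q : Marked K n} (hQ : Q.Admissible)
    (k : ∀ j, Fin (Q.r j)) : Tempered.{u, v} (bV Q.W) (symb (bu Q k)) := by
  classical
  intro L _ φ v _
  set c : K →+* L := φ.comp (bcst Q.W) with hc
  set x : Fin (n + 1) → Lˣ := fun j => Units.map (φ : Bs Q.W →* L) (bx Q.W j) with hx
  set E : Fin (n + 1) → Lˣ := fun l => Units.map (φ : Bs Q.W →* L) (bu Q k l) with hE
  have hroot : ∀ j i, v (c (Q.c j i)) = 1 := fun j i => by
    obtain ⟨m, hm, h1⟩ := hQ.root j i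
    refine val_root v hm ?_
    rw [← map_pow, h1, map_one]
  have hl : ∀ j i, (Units.map (φ : Bs Q.W →* L) (bl Q j i) : L) = x j - c (Q.c j i) := by
    intro j i
    show φ (bl Q j i : Bs Q.W) = _
    rw [bl_coe, map_sub]
    rfl
  have hne : ∀ j i, (x j : L) - c (Q.c j i) ≠ 0 := fun j i => by
    rw [← hl]
    exact Units.ne_zero _
  have hEu : ∀ j, (E j : L) = (x j - c (Q.c j (k j).succ)) / (x j - c (Q.c j 0)) := by
    intro j
    simp only [hE]
    unfold bu
    rw [map_div, Units.val_div_eq_div_val, hl, hl]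
  rw [KQ.map_symb]
  change (v (φ (bV Q.W)) = 1 → symb E ∈ unitPart v (n + 1)) ∧
    (1 < v (φ (bV Q.W)) → symb E ∈ oneUnits v (n + 1))
  by_cases hB : ∃ j, v (x j : L) ≠ 1
  · have key : symb E ∈ oneUnits v (n + 1) := by
      obtain ⟨j, hj⟩ := hB
      set a : L := c (Q.c j (k j).succ) with ha
      set b : L := c (Q.c j 0) with hb
      have hva : v a = 1 := hroot j _
      have hvb : v b = 1 := hroot j _
      have ha0 : a ≠ 0 := fun h => by rw [h, map_zero] at hva; exact zero_ne_one hva
      have hb0 : b ≠ 0 := fun h => by rw [h, map_zero] at hvb; exact zero_ne_one hvb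
      rcases lt_or_gt_of_ne hj with hlt | hgt
      · -- `x_j` is small
        have h0 : symb E = symb (Function.update E j (Units.mk0 (b / a) (div_ne_zero hb0 ha0) *
            E j)) := by
          refine symb_tors _ _ fun l => ?_
          by_cases hl : l = j
          · subst hl
            rw [Function.update_self]
            obtain ⟨m1, hm1, e1⟩ := hQ.root l (k l).succ
            obtain ⟨m2, hm2, e2⟩ := hQ.root l 0
            refine ⟨m1 * m2, mul_ne_zero hm1 hm2, ?_⟩
            have e3 : a ^ m1 = 1 := by rw [ha, ← map_pow, e1, map_one]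
            have e4 : b ^ m2 = 1 := by rw [hb, ← map_pow, e2, map_one]
            have e5 : a ^ (m1 * m2) = 1 := by rw [pow_mul, e3, one_pow]
            have e6 : b ^ (m1 * m2) = 1 := by rw [mul_comm, pow_mul, e4, one_pow]
            have e7 : E l / (Units.mk0 (b / a) (div_ne_zero hb0 ha0) * E l) =
                (Units.mk0 (b / a) (div_ne_zero hb0 ha0))⁻¹ := by
              rw [div_eq_mul_inv, mul_inv, mul_comm _ (E l)⁻¹, ← mul_assoc, mul_inv_cancel,
                one_mul]
            rw [e7, inv_pow, inv_eq_one]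
            refine Units.ext ?_
            rw [Units.val_pow_eq_pow_val, Units.val_mk0, div_pow, e5, e6, div_one, Units.val_one]
          · rw [Function.update_of_ne hl]
            exact ⟨1, one_ne_zero, by rw [div_self', one_pow]⟩
        rw [h0]
        refine Submodule.subset_span ⟨_, j, ?_, rfl⟩
        rw [Function.update_self, Units.val_mul, Units.val_mk0, hEu]
        have hvd : v ((x j : L) - b) = 1 := by
          rw [Valuation.map_sub_eq_of_lt_right v (by rw [hvb]; exact hlt), hvb]
        have e : b / a * ((x j - a) / (x j - b)) - 1 = x j * (b - a) / (a * (x j - b)) := by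
          have q1 : (x j : L) - b ≠ 0 := hne j 0
          field_simp
          ring
        rw [e, map_div₀, map_mul, map_mul, hva, hvd, one_mul, div_one]
        have h1 : v (b - a) ≤ 1 := (v.map_sub _ _).trans (by rw [hva, hvb, max_self])
        calc v (x j : L) * v (b - a) ≤ v (x j : L) * 1 := mul_le_mul_right h1 _
          _ < 1 := by rw [mul_one]; exact hlt
      · -- `x_j` is large
        refine Submodule.subset_span ⟨E, j, ?_, rfl⟩
        have hvd : v ((x j : L) - b) = v (x j : L) :=
          Valuation.map_sub_eq_of_lt_left v (by rw [hvb]; exact hgt)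
        rw [hEu, div_sub_one (hne j 0), map_div₀]
        have e : (x j : L) - a - (x j - b) = b - a := by ring
        have h1 : v (b - a) ≤ 1 := (v.map_sub _ _).trans (by rw [hva, hvb, max_self])
        show v ((x j : L) - a - (x j - b)) / v ((x j : L) - b) < 1
        rw [e, hvd, div_lt_one₀ (zero_lt_one.trans hgt)]
        exact h1.trans_lt hgt
    exact ⟨fun _ => oneUnits_le v key, fun _ => key⟩
  · push Not at hB
    have hVx : φ (bV Q.W) = lev c x Q.W := by rw [bV_coe, hom_bmap]
    have hprod : lev c x Q.W = lev c x Q.G * ∏ j, ∏ i, ((x j : L) - c (Q.c j i)) := by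
      unfold Marked.W
      rw [map_mul, map_prod]
      congr 1
      refine Finset.prod_congr rfl fun j _ => ?_
      rw [map_prod]
      exact Finset.prod_congr rfl fun i _ => lev_lin _ _ _ _
    have hle : ∀ j i, v ((x j : L) - c (Q.c j i)) ≤ 1 := fun j i =>
      (v.map_sub _ _).trans (by rw [hB j, hroot, max_self])
    have hG1 : v (lev c x Q.G) ≤ 1 := lev_le_one c v hB hQ.integral
    have hV1 : v (φ (bV Q.W)) ≤ 1 := by
      rw [hVx, hprod, map_mul, map_prod]
      refine mul_le_one' hG1 (Finset.prod_le_one' fun j _ => ?_)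
      rw [map_prod]
      exact Finset.prod_le_one' fun i _ => hle j i
    refine ⟨fun h1 => ?_, fun h1 => absurd hV1 (not_le.2 h1)⟩
    have hall : ∀ j i, v ((x j : L) - c (Q.c j i)) = 1 := by
      intro j i
      rw [hVx, hprod, map_mul, map_prod] at h1
      have h2 : ∀ j', v (∏ i, ((x j' : L) - c (Q.c j' i))) ≤ 1 := fun j' => by
        rw [map_prod]
        exact Finset.prod_le_one' fun i _ => hle j' i
      have h3 : ∏ j', v (∏ i, ((x j' : L) - c (Q.c j' i))) ≤ 1 :=
        Finset.prod_le_one' fun j' _ => h2 j'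
      have h4 : ∏ j', v (∏ i, ((x j' : L) - c (Q.c j' i))) = 1 := by
        refine le_antisymm h3 ?_
        rw [← h1]
        exact mul_le_of_le_one_left' hG1
      have h5 : v (∏ i, ((x j : L) - c (Q.c j i))) = 1 :=
        (Finset.prod_eq_one_iff_of_le_one' fun j' _ => h2 j').1 h4 j (Finset.mem_univ j)
      rw [map_prod] at h5
      exact (Finset.prod_eq_one_iff_of_le_one' fun i _ => hle j i).1 h5 i (Finset.mem_univ i)
    refine Submodule.subset_span ⟨E, fun j => ?_, rfl⟩
    rw [hEu, map_div₀, hall, hall, div_one]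

end tempered

section unr

theorem cls_unramified.{u, v} {K : Type u} [Field K] {s n : ℕ} {P : Marked K s} {Q : Marked K n}
    (hP : P.Admissible) (hQ : Q.Admissible) {lam : Kˣ} (h1 : IsIntegral ℤ (lam : K))
    (h2 : IsIntegral ℤ ((lam⁻¹ : Kˣ) : K)) {L : Type v} [Field L] (F : XR P.W Q.W lam →+* L)
    (k : Ix P Q) : KQ.map _ F (cls P Q lam k) ∈ Unramified L (n + 1 + (s + 1)) := by
  rcases k with k | k
  · have h := susp_mem_unramified hP.interior hP.tame (bcst Q.W) (bV Q.W) h1
      (bu_tempered.{u, v} hQ k) F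
    rw [cat_symb] at h
    exact h
  · -- the other side
    set c : K →+* L := F.comp (xcst P.W Q.W lam) with hc
    set z : Fin (s + 1) → Lˣ := fun i => Units.map (F : XR P.W Q.W lam →* L) (xz P.W Q.W lam i)
      with hz
    set x : Fin (n + 1) → Lˣ := fun i => Units.map (F : XR P.W Q.W lam →* L) (xx P.W Q.W lam i)
      with hx
    have hW : F (lev (xcst P.W Q.W lam) (xz P.W Q.W lam) P.W) = lev c z P.W := lev_comp _ _ _ _
    have hV : F (lev (xcst P.W Q.W lam) (xx P.W Q.W lam) Q.W) = lev c x Q.W := lev_comp _ _ _ _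
    have heqn : lev c z P.W = c lam * lev c x Q.W := by
      rw [← hW, ← hV, xeqn, map_mul, lev_xx]
      rfl
    have hWu : IsUnit (lev c z P.W) := by
      rw [← hW]
      exact (isUnit_lev_xz P.W Q.W lam).map F
    have heqn' : lev c x Q.W = c (lam⁻¹ : Kˣ) * lev c z P.W := by
      rw [heqn, ← mul_assoc, ← map_mul, Units.inv_mul, map_one, one_mul]
    set F' : XR Q.W P.W lam⁻¹ →+* L := xpt c x z hWu heqn' with hF'
    have h := susp_mem_unramified hQ.interior hQ.tame (bcst P.W) (bV P.W) h2
      (bu_tempered.{u, v} hP k) F'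
    rw [cat_symb, KQ.map_symb] at h
    have e1 : (fun i => Units.map (F' : XR Q.W P.W lam⁻¹ →* L) (Fin.append
        (xu Q P lam⁻¹ k) (xz Q.W P.W lam⁻¹) i)) =
        Fin.append (fun j => Units.map (F : XR P.W Q.W lam →* L) (zu P Q lam k j)) x := by
      funext l
      refine Fin.addCases (fun j => ?_) (fun j => ?_) l
      · rw [Fin.append_left, Fin.append_left]
        refine Units.ext ?_
        show F' (xu Q P lam⁻¹ k j : XR Q.W P.W lam⁻¹) = F (zu P Q lam k j : XR P.W Q.W lam)
        have a1 := congrArg F' (xu_mul Q P lam⁻¹ k j)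
        have a2 := congrArg F (zu_mul P Q lam k j)
        rw [map_mul, map_sub, map_sub, hF', xpt_xx, xpt_cst, xpt_cst, ← hF'] at a1
        rw [map_mul, map_sub, map_sub] at a2
        have a3 : (z j : L) - c (P.c j 0) ≠ 0 := by
          have a4 := ((zl P Q lam j 0).isUnit.map F).ne_zero
          rw [zl_coe, map_sub] at a4
          exact a4
        exact mul_right_cancel₀ a3 (a1.trans a2.symm)
      · rw [Fin.append_right, Fin.append_right]
        refine Units.ext ?_
        show F' (xz Q.W P.W lam⁻¹ j : XR Q.W P.W lam⁻¹) = x j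
        exact xpt_xz _ _ _ _ _ _
    have h' : symb (Fin.append (fun j => Units.map (F : XR P.W Q.W lam →* L) (zu P Q lam k j)) x) ∈
        Unramified L (s + 1 + (n + 1)) := by
      rw [← e1]
      exact h
    have h3 := reindex_unramified (finAddFlip : Fin (n + 1 + (s + 1)) ≃ Fin (s + 1 + (n + 1))) _ h'
    rw [← append_flip] at h3
    have e2 : KQ.map _ F (cls P Q lam (Sum.inr k)) = symb (Fin.append x
        (fun j => Units.map (F : XR P.W Q.W lam →* L) (zu P Q lam k j))) := by
      unfold cls
      rw [Sum.elim_inr, KQ.map_symb]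
      congr 1
      funext l
      refine Fin.addCases (fun j => ?_) (fun j => ?_) l
      · rw [Fin.append_left, Fin.append_left]
      · rw [Fin.append_right, Fin.append_right]
    rw [e2]
    exact h3

end unr

end Pool.Agent.L7h9.TS
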