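import Pool.Agent.L7h9.TS.BaseT
import Pool.Agent.L7h9.TS.Half
import Pool.Agent.L7h9.TS.Unr
set_option autoImplicit false

/-!
The regulators of the classes on the hypersurfaces `W(z) = λ V(x)` at two places.
-/

namespace Pool.Agent.L7h9.TS

open Pool.Agent.TH826.MK

open Pool.Agent.N65.TL

open Pool.Agent.L7h9.SU

open Pool.Agent.L7h9.LT (lval lder)

section vertex

variable {K : Type*} [Field K] {s : ℕ}

/-- A vertex of the Newton polytope and a functional with nonzero coefficients. -/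
theorem exists_vertex' {W : LP K (s + 1)} (hW : Interior W) :
    ∃ a v : Fin (s + 1) → ℤ, W.coeff v ≠ 0 ∧ 0 < dot a v ∧
      (∀ m, W.coeff m ≠ 0 → m ≠ v → dot a m < dot a v) ∧ ∀ j, a j ≠ 0 := by
  classical
  obtain ⟨a, v, hv, hpos, hmax⟩ := exists_vertex hW
  set M : ℤ := 2 + ∑ m ∈ W.coeff.support, |∑ j, m j| with hM
  have hle : ∀ m ∈ W.coeff.support, |∑ j, m j| ≤ M - 2 := by
    intro m hm
    have h1 : |∑ j, m j| ≤ ∑ m ∈ W.coeff.support, |∑ j, m j| :=
      Finset.single_le_sum (f := fun m : Fin (s + 1) → ℤ => |∑ j, m j|)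
        (fun m _ => abs_nonneg _) hm
    rw [hM]
    linarith
  have hsum : 0 ≤ ∑ m ∈ W.coeff.support, |∑ j, m j| := Finset.sum_nonneg fun m _ => abs_nonneg _
  have hM2 : 2 ≤ M := by rw [hM]; linarith
  have hdot : ∀ N : ℤ, ∀ m, dot (fun j => N * a j + 1) m = N * dot a m + ∑ j, m j := by
    intro N m
    unfold dot
    rw [Finset.mul_sum, ← Finset.sum_add_distrib]
    exact Finset.sum_congr rfl fun j _ => by ring
  have hvs : v ∈ W.coeff.support := Finsupp.mem_support_iff.2 hv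
  refine ⟨fun j => (2 * M) * a j + 1, v, hv, ?_, fun m hm hmv => ?_, fun j => ?_⟩
  · rw [hdot]
    have h1 := abs_le.1 (hle v hvs)
    have h2 : 2 * M * 1 ≤ 2 * M * dot a v := mul_le_mul_of_nonneg_left (by omega) (by omega)
    linarith [h1.1]
  · rw [hdot, hdot]
    have h1 := abs_le.1 (hle v hvs)
    have h3 := abs_le.1 (hle m (Finsupp.mem_support_iff.2 hm))
    have h4 : dot a m + 1 ≤ dot a v := hmax m hm hmv
    have h2 : 2 * M * (dot a m + 1) ≤ 2 * M * dot a v := mul_le_mul_of_nonneg_left h4 (by omega)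
    linarith [h1.1, h3.2]
  · intro h0
    have h1 : 2 * (M * a j) = -1 := by linarith
    omega

end vertex

section pull

variable {A B : Type*} [CommRing A] [CommRing B] {d : ℕ}

/-- The image of a torus under a morphism. -/
noncomputable def pull (ψ : A →+* B) (T : Torus B d) : Torus A d where
  e θ := (T.e θ).comp ψ
  smooth h := T.smooth (ψ h)
  periodic θ i := by rw [T.periodic]

theorem pull_reg (ψ : A →+* B) (T : Torus B d) (a : Fin (d + 1) → Aˣ) :
    (pull ψ T).reg (symb a) = T.reg (symb fun i => Units.map (ψ : A →* B) (a i)) := by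
  rw [Torus.reg_symb, Torus.reg_symb]
  rfl

theorem pairing_perm (e : Equiv.Perm (Fin (d + 1))) (g : Fin (d + 1) → (Fin d → ℝ) → ℂ) :
    pairing (g ∘ e) = ((Equiv.Perm.sign e : ℤ) : ℝ) * pairing g := by
  unfold pairing
  rw [← MeasureTheory.integral_const_mul]
  congr 1
  funext y
  unfold integrand
  have h1 : (Matrix.of fun l => grow ((g ∘ e) l) y) =
      (Matrix.of fun l => grow (g l) y).submatrix e id := rfl
  rw [h1, Matrix.det_permute]
  have h2 : (((Equiv.Perm.sign e : ℤ)) : ℂ) = (((Equiv.Perm.sign e : ℤ) : ℝ) : ℂ) := by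
    push_cast
    rfl
  rw [h2, mul_left_comm, Complex.re_ofReal_mul]

theorem exists_castT {a b : ℕ} (h : a = b) (T : Torus A a) (e : Fin (b + 1) ≃ Fin (a + 1)) :
    ∃ (T' : Torus A b) (ε : ℝ), ε ≠ 0 ∧ |ε| = 1 ∧ ε * ε = 1 ∧
      (∀ θ, ∃ θ', T'.e θ = T.e θ') ∧
      ∀ c : Fin (a + 1) → Aˣ, T'.reg (symb (c ∘ e)) = ε * T.reg (symb c) := by
  subst h
  have hs : (((Equiv.Perm.sign e : ℤ)) : ℝ) * (((Equiv.Perm.sign e : ℤ)) : ℝ) = 1 := by
    rw [← Int.cast_mul, ← Units.val_mul, Int.units_mul_self, Units.val_one, Int.cast_one]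
  refine ⟨T, ((Equiv.Perm.sign e : ℤ) : ℝ), ?_, ?_, hs, fun θ => ⟨θ, rfl⟩, fun c => ?_⟩
  · intro h0
    rw [h0, mul_zero] at hs
    exact zero_ne_one hs
  · have h1 : |(((Equiv.Perm.sign e : ℤ)) : ℝ)| * |(((Equiv.Perm.sign e : ℤ)) : ℝ)| = 1 := by
      rw [← abs_mul, hs, abs_one]
    nlinarith [abs_nonneg (((Equiv.Perm.sign e : ℤ)) : ℝ)]
  · rw [Torus.reg_symb, Torus.reg_symb]
    exact pairing_perm e fun l => T.fn (c l : A)

end pull

section side

variable {K : Type*} [Field K] [CharZero K] {s n : ℕ} {P : Marked K s} {Q : Marked K n}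

/-- The tori on one side. -/
theorem exists_side (σ : K →+* ℂ) (hP : P.Admissible) (hQ : Q.Admissible) :
    ∃ M : Matrix (∀ j, Fin (Q.r j)) (∀ j, Fin (Q.r j)) ℝ, M.det ≠ 0 ∧ ∀ ε : ℝ, 0 < ε →
      ∃ C : ℝ, 1 < C ∧ ∀ lam : Kˣ, C ≤ ‖σ lam‖ →
        ∃ Γ : (∀ j, Fin (Q.r j)) → Torus (XR P.W Q.W lam) (n + 1 + s),
          (∀ t θ x, (Γ t).e θ (xcst P.W Q.W lam x) = σ x) ∧
          (∀ t θ, ∃ i, lder σ P.W
            (fun j => (Γ t).e θ (xz P.W Q.W lam j : XR P.W Q.W lam)) i ≠ 0) ∧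
          (∀ t k, |(Γ t).reg (symb (Fin.append (m := n + 1) (n := s + 1) (xu P Q lam k)
            (xz P.W Q.W lam))) / Real.log ‖σ lam‖ - M t k| ≤ ε) ∧
          (∀ t k, |(Γ t).reg (symb (Fin.append (m := n + 1) (n := s + 1) (xx P.W Q.W lam)
            (zu P Q lam k))) / Real.log ‖σ lam‖| ≤ ε) := by
  classical
  obtain ⟨al, v, hv, hpos, hmax, hal⟩ := exists_vertex' hP.interior
  obtain ⟨i0, hi0⟩ : ∃ i0, v i0 ≠ 0 := by
    by_contra hcon
    push Not at hcon
    have h1 : dot al v = 0 := Finset.sum_eq_zero fun i _ => by rw [hcon i, mul_zero]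
    omega
  set k0 : ℕ := (dot al v).toNat with hk0
  have hk0pos : 0 < k0 := by omega
  set D : ℝ := SU.cst (n + 1) s k0 * (zmat al v i0).det with hD
  have hD0 : D ≠ 0 := mul_ne_zero (cst_ne_zero hk0pos) (det_zmat hpos hi0)
  obtain ⟨γ, hγ, hdet⟩ := base_periods σ hQ
  have hne : ∀ j i, P.c j i ≠ 0 := fun j i h0 => by
    obtain ⟨m, hm, h1⟩ := hP.root j i
    rw [h0, zero_pow hm] at h1
    exact zero_ne_one h1
  refine ⟨D • Matrix.of fun t k => (γ t).reg (byTwo (bcst Q.W) (symb (bu Q k))), ?_,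
    fun ε hε => ?_⟩
  · rw [Matrix.det_smul]
    exact mul_ne_zero (pow_ne_zero _ hD0) hdet
  choose Λ hΛ1 hΛ using fun t : (∀ j, Fin (Q.r j)) =>
    half (W := P.W) σ (bcst Q.W) (bV Q.W) (γ t) (hγ t) hv hpos hmax hal i0 (bu Q) (bx Q.W)
      (fun (k : ∀ j, Fin (P.r j)) j => P.c j (k j).succ) (fun _ j => P.c j 0)
      (fun _ _ => hne _ _) (fun _ _ => hne _ _) hε
  obtain ⟨C, hC0, hC⟩ := exists_upper Λ
  refine ⟨C + 2, by linarith, fun lam hlam => ?_⟩
  choose Γ h1 h2 h3 h4 using fun t => hΛ t lam ((hC t).trans (by linarith))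
  refine ⟨Γ, h1, h2, fun t k => ?_, fun t k => ?_⟩
  · have h5 := h3 t k
    rw [Matrix.smul_apply, Matrix.of_apply, smul_eq_mul]
    exact h5
  · exact h4 t k (zu P Q lam k) fun j => zu_mul P Q lam k j

/-- The tori on both sides. -/
theorem exists_both (σ τ : K →+* ℂ) (hP : P.Admissible) (hQ : Q.Admissible) :
    ∃ C : ℝ, 1 < C ∧ ∀ lam : Kˣ, C ≤ ‖σ lam‖ → C ≤ ‖τ (lam⁻¹ : Kˣ)‖ →
      ∃ Γ : Ix P Q → Torus (XR P.W Q.W lam) (n + 1 + s),
        (∀ t θ x, (Γ t).e θ (xcst P.W Q.W lam x) = (t.elim (fun _ => σ) fun _ => τ) x) ∧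
        (∀ t θ,
          (∃ i, lder (t.elim (fun _ => σ) fun _ => τ) P.W
            (fun j => (Γ t).e θ (xz P.W Q.W lam j : XR P.W Q.W lam)) i ≠ 0) ∨
          (∃ i, lder (t.elim (fun _ => σ) fun _ => τ) Q.W
            (fun j => (Γ t).e θ (xx P.W Q.W lam j : XR P.W Q.W lam)) i ≠ 0)) ∧
        (Matrix.of fun t k => (Γ t).reg (cls P Q lam k)).det ≠ 0 := by
  classical
  obtain ⟨M1, hM1, hs1⟩ := exists_side (P := P) (Q := Q) σ hP hQ
  obtain ⟨M2, hM2, hs2⟩ := exists_side (P := Q) (Q := P) τ hQ hP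
  set M : Matrix (Ix P Q) (Ix P Q) ℝ := Matrix.fromBlocks M1 0 0 M2 with hM
  have hMdet : M.det ≠ 0 := by
    rw [hM, Matrix.det_fromBlocks_zero₂₁]
    exact mul_ne_zero hM1 hM2
  obtain ⟨δ, hδ, hnear⟩ := Pool.Agent.TH826.SX.det_ne_zero_near _ hMdet
  obtain ⟨C1, hC1, h1⟩ := hs1 (δ / 2) (by linarith)
  obtain ⟨C2, hC2, h2⟩ := hs2 (δ / 2) (by linarith)
  refine ⟨max C1 C2, lt_of_lt_of_le hC1 (le_max_left _ _), fun lam hl1 hl2 => ?_⟩
  obtain ⟨Γ1, a1, a2, a3, a4⟩ := h1 lam ((le_max_left _ _).trans hl1)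
  obtain ⟨Γ2, b1, b2, b3, b4⟩ := h2 lam⁻¹ ((le_max_right _ _).trans hl2)
  have hlog1 : 0 < Real.log ‖σ lam‖ :=
    Real.log_pos (lt_of_lt_of_le hC1 ((le_max_left _ _).trans hl1))
  have hlog2 : 0 < Real.log ‖τ (lam⁻¹ : Kˣ)‖ :=
    Real.log_pos (lt_of_lt_of_le hC2 ((le_max_right _ _).trans hl2))
  have hdim : s + 1 + n = n + 1 + s := by omega
  choose T' ε hε0 hε1 hεε hTe hTreg using fun t => exists_castT hdim
    (pull (swap P Q lam) (Γ2 t)) (finAddFlip : Fin (n + 1 + (s + 1)) ≃ Fin (s + 1 + (n + 1)))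
  -- the values on the second set of tori
  have hcx : ∀ t θ x, (T' t).e θ (xcst P.W Q.W lam x) = τ x := by
    intro t θ x
    obtain ⟨θ', hθ'⟩ := hTe t θ
    rw [hθ']
    show (Γ2 t).e θ' (swap P Q lam (xcst P.W Q.W lam x)) = τ x
    rw [swap_cst, b1]
  have hcd : ∀ t θ, ∃ i, lder τ Q.W
      (fun j => (T' t).e θ (xx P.W Q.W lam j : XR P.W Q.W lam)) i ≠ 0 := by
    intro t θ
    obtain ⟨θ', hθ'⟩ := hTe t θ
    obtain ⟨i, hi⟩ := b2 t θ'
    refine ⟨i, ?_⟩
    have e : (fun j => (T' t).e θ (xx P.W Q.W lam j : XR P.W Q.W lam)) =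
        fun j => (Γ2 t).e θ' (xz Q.W P.W lam⁻¹ j : XR Q.W P.W lam⁻¹) := by
      funext j
      rw [hθ']
      show (Γ2 t).e θ' (swap P Q lam (xx P.W Q.W lam j : XR P.W Q.W lam)) = _
      rw [swap_xx]
    rw [e]
    exact hi
  have hregI : ∀ t k, (T' t).reg (symb (Fin.append (m := n + 1) (n := s + 1) (xu P Q lam k)
      (xz P.W Q.W lam))) =
      ε t * (Γ2 t).reg (symb (Fin.append (m := s + 1) (n := n + 1) (xx Q.W P.W lam⁻¹)
        (zu Q P lam⁻¹ k))) := by
    intro t k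
    rw [append_flip, hTreg]
    congr 1
    refine (pull_reg (swap P Q lam) (Γ2 t) _).trans ?_
    congr 2
    funext l
    refine Fin.addCases (m := s + 1) (n := n + 1) (fun j => ?_) (fun j => ?_) l
    · have e1 := Fin.append_left (m := s + 1) (n := n + 1) (xz P.W Q.W lam) (xu P Q lam k) j
      have e2 := Fin.append_left (m := s + 1) (n := n + 1) (xx Q.W P.W lam⁻¹)
        (zu Q P lam⁻¹ k) j
      refine (congrArg _ e1).trans (Eq.trans ?_ e2.symm)
      exact Units.ext (swap_xz P Q lam j)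
    · have e1 := Fin.append_right (m := s + 1) (n := n + 1) (xz P.W Q.W lam) (xu P Q lam k) j
      have e2 := Fin.append_right (m := s + 1) (n := n + 1) (xx Q.W P.W lam⁻¹)
        (zu Q P lam⁻¹ k) j
      refine (congrArg _ e1).trans (Eq.trans ?_ e2.symm)
      exact Units.ext (swap_xu P Q lam k j)
  have hregII : ∀ t k, (T' t).reg (symb (Fin.append (m := n + 1) (n := s + 1) (xx P.W Q.W lam)
      (zu P Q lam k))) =
      ε t * (Γ2 t).reg (symb (Fin.append (m := s + 1) (n := n + 1) (xu Q P lam⁻¹ k)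
        (xz Q.W P.W lam⁻¹))) := by
    intro t k
    rw [append_flip, hTreg]
    congr 1
    refine (pull_reg (swap P Q lam) (Γ2 t) _).trans ?_
    congr 2
    funext l
    refine Fin.addCases (m := s + 1) (n := n + 1) (fun j => ?_) (fun j => ?_) l
    · have e1 := Fin.append_left (m := s + 1) (n := n + 1) (zu P Q lam k) (xx P.W Q.W lam) j
      have e2 := Fin.append_left (m := s + 1) (n := n + 1) (xu Q P lam⁻¹ k)
        (xz Q.W P.W lam⁻¹) j
      refine (congrArg _ e1).trans (Eq.trans ?_ e2.symm)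
      exact Units.ext (swap_zu P Q lam k j)
    · have e1 := Fin.append_right (m := s + 1) (n := n + 1) (zu P Q lam k) (xx P.W Q.W lam) j
      have e2 := Fin.append_right (m := s + 1) (n := n + 1) (xu Q P lam⁻¹ k)
        (xz Q.W P.W lam⁻¹) j
      refine (congrArg _ e1).trans (Eq.trans ?_ e2.symm)
      exact Units.ext (swap_xx P Q lam j)
  set Γ : Ix P Q → Torus (XR P.W Q.W lam) (n + 1 + s) := fun t => t.elim Γ1 T' with hΓ
  refine ⟨Γ, fun t θ x => ?_, fun t θ => ?_, ?_⟩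
  · rcases t with t | t
    · exact a1 t θ x
    · exact hcx t θ x
  · rcases t with t | t
    · exact Or.inl (a2 t θ)
    · exact Or.inr (hcd t θ)
  set sc : Ix P Q → ℝ := fun t => t.elim (fun _ => (Real.log ‖σ lam‖)⁻¹)
    (fun t => ε t * (Real.log ‖τ (lam⁻¹ : Kˣ)‖)⁻¹) with hsc
  have h5 := hnear (Matrix.of fun t k => sc t * (Γ t).reg (cls P Q lam k)) (fun t k => by
    rw [Matrix.of_apply]
    rcases t with t | t
    · rcases k with k | k
      · have h6 := a3 t k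
        have e : sc (Sum.inl t) * (Γ (Sum.inl t)).reg (cls P Q lam (Sum.inl k)) =
            (Γ1 t).reg (symb (Fin.append (m := n + 1) (n := s + 1) (xu P Q lam k)
            (xz P.W Q.W lam))) / Real.log ‖σ lam‖ := by
          rw [div_eq_inv_mul]
          rfl
        rw [e, hM, Matrix.fromBlocks_apply₁₁]
        exact lt_of_le_of_lt h6 (by linarith)
      · have h6 := a4 t k
        have e : sc (Sum.inl t) * (Γ (Sum.inl t)).reg (cls P Q lam (Sum.inr k)) =
            (Γ1 t).reg (symb (Fin.append (m := n + 1) (n := s + 1) (xx P.W Q.W lam)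
            (zu P Q lam k))) / Real.log ‖σ lam‖ := by
          rw [div_eq_inv_mul]
          rfl
        rw [e, hM, Matrix.fromBlocks_apply₁₂, Matrix.zero_apply, sub_zero]
        exact lt_of_le_of_lt h6 (by linarith)
    · rcases k with k | k
      · have h6 := b4 t k
        have e : sc (Sum.inr t) * (Γ (Sum.inr t)).reg (cls P Q lam (Sum.inl k)) =
            (Γ2 t).reg (symb (Fin.append (m := s + 1) (n := n + 1) (xx Q.W P.W lam⁻¹)
            (zu Q P lam⁻¹ k))) / Real.log ‖τ (lam⁻¹ : Kˣ)‖ := by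
          have e1 : (Γ (Sum.inr t)).reg (cls P Q lam (Sum.inl k)) = _ := hregI t k
          have e2 : sc (Sum.inr t) = ε t * (Real.log ‖τ (lam⁻¹ : Kˣ)‖)⁻¹ := rfl
          rw [e1, e2, div_eq_mul_inv]
          linear_combination ((Γ2 t).reg (symb (Fin.append (m := s + 1) (n := n + 1)
            (xx Q.W P.W lam⁻¹) (zu Q P lam⁻¹ k))) * (Real.log ‖τ (lam⁻¹ : Kˣ)‖)⁻¹) * hεε t
        rw [e, hM, Matrix.fromBlocks_apply₂₁, Matrix.zero_apply, sub_zero]
        exact lt_of_le_of_lt h6 (by linarith)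
      · have h6 := b3 t k
        have e : sc (Sum.inr t) * (Γ (Sum.inr t)).reg (cls P Q lam (Sum.inr k)) =
            (Γ2 t).reg (symb (Fin.append (m := s + 1) (n := n + 1) (xu Q P lam⁻¹ k)
            (xz Q.W P.W lam⁻¹))) / Real.log ‖τ (lam⁻¹ : Kˣ)‖ := by
          have e1 : (Γ (Sum.inr t)).reg (cls P Q lam (Sum.inr k)) = _ := hregII t k
          have e2 : sc (Sum.inr t) = ε t * (Real.log ‖τ (lam⁻¹ : Kˣ)‖)⁻¹ := rfl
          rw [e1, e2, div_eq_mul_inv]
          linear_combination ((Γ2 t).reg (symb (Fin.append (m := s + 1) (n := n + 1)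
            (xu Q P lam⁻¹ k) (xz Q.W P.W lam⁻¹))) * (Real.log ‖τ (lam⁻¹ : Kˣ)‖)⁻¹) * hεε t
        rw [e, hM, Matrix.fromBlocks_apply₂₂]
        exact lt_of_le_of_lt h6 (by linarith))
  intro h0
  apply h5
  have h7 : (Matrix.of fun t k => sc t * (Γ t).reg (cls P Q lam k)) = Matrix.of fun t k =>
      sc t * (Matrix.of fun t k => (Γ t).reg (cls P Q lam k)) t k := rfl
  rw [h7, Matrix.det_mul_column, h0, mul_zero]

end side

end Pool.Agent.L7h9.TS
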