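import Pool.Agent.L7h9.SU.Tor
set_option autoImplicit false

/-!
Functions `Z_i` on the torus with `W(Z) = λ f`, for large `λ`.
-/

namespace Pool.Agent.L7h9.TS

open Filter Topology

open Pool.Agent.TH826.MK

open Pool.Agent.N65.TL

open Pool.Agent.L7h9.SU

open Pool.Agent.L7h9.LT (lval lder)

variable {K A : Type*} [Field K] [CharZero K] [CommRing A] {s n : ℕ} {W : LP K (s + 1)}

theorem exists_Z (σ : K →+* ℂ) (ι : K →+* A) (f : Aˣ) (γ : Torus A n)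
    (hγ : ∀ θ x, γ.e θ (ι x) = σ x) {al v : Fin (s + 1) → ℤ} (hv : W.coeff v ≠ 0)
    (hpos : 0 < dot al v) (hmax : ∀ m, W.coeff m ≠ 0 → m ≠ v → dot al m < dot al v)
    (i0 : Fin (s + 1)) :
    ∃ B : ℝ, 0 ≤ B ∧ ∀ δ1 : ℝ, 0 < δ1 → ∃ Λ0 : ℝ, 1 < Λ0 ∧ ∀ lam : K, Λ0 ≤ ‖σ lam‖ →
      ∃ (Z : Fin (s + 1) → (Fin (n + s) → ℝ) → ℂ) (hZ : ∀ i, Good (Z i)) (_ : ∀ i, Per (Z i))
        (_ : ∀ θ, lev ((γ.e (pul n s (dot al v).toNat θ)).comp ι) (uval hZ θ) W =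
          γ.e (pul n s (dot al v).toNat θ) (ι lam * f)),
        (∀ θ, ∃ i, lder σ W (fun j => Z j θ) i ≠ 0) ∧
        (∀ i θ, |Real.log ‖Z i θ‖ / Real.log ‖σ lam‖ - (al i : ℝ) / (dot al v : ℤ)| ≤ δ1) ∧
        (∀ i l θ, ‖lw (Z i) (Fin.natAdd n l) θ - 2 * Real.pi * Complex.I *
          ((bdir v i0 l i : ℝ) : ℂ)‖ ≤ δ1) ∧
        (∀ i j θ, ‖lw (Z i) (Fin.castAdd s j) θ‖ ≤ B) := by
  classical
  have hpi := Real.pi_pos
  set k : ℕ := (dot al v).toNat with hk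
  have hkz : (k : ℤ) = dot al v := Int.toNat_of_nonneg hpos.le
  have hk0 : 0 < k := by omega
  have hkR : (0 : ℝ) < k := by exact_mod_cast hk0
  have hkzR : ((dot al v : ℤ) : ℝ) = k := by
    rw [← hkz]
    simp
  have hσv : σ (W.coeff v) ≠ 0 := (map_ne_zero σ).2 hv
  -- the root on the base
  have hF : Good (γ.fn (f : A)) := γ.good f
  have hFp : Per (γ.fn (f : A)) := γ.per _
  obtain ⟨h, hh, hhp, hhk⟩ := exists_kroot hF hFp hk0
  obtain ⟨Ch, hCh0, hChl, hChw⟩ := Good.bdd hh hhp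
  obtain ⟨CF, hCF0, hCFl, -⟩ := Good.bdd hF hFp
  set Ab : ℝ := 1 + ∑ i, |(al i : ℝ)| with hA
  have hA1 : 1 ≤ Ab := by
    have : 0 ≤ ∑ i, |(al i : ℝ)| := Finset.sum_nonneg fun i _ => abs_nonneg _
    linarith
  have hAi : ∀ i, |(al i : ℝ)| ≤ Ab := by
    intro i
    have h1 := Finset.single_le_sum (f := fun i => |(al i : ℝ)|) (fun i _ => abs_nonneg _)
      (Finset.mem_univ i)
    have h2 : |(al i : ℝ)| ≤ ∑ i, |(al i : ℝ)| := h1
    linarith
  refine ⟨Ab * Ch + 1, by positivity, fun δ1 hδ1 => ?_⟩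
  obtain ⟨δ0, hδ0, hδ01, hδ0le⟩ : ∃ δ0 : ℝ, 0 < δ0 ∧ δ0 ≤ 1 ∧ δ0 ≤ δ1 :=
    ⟨min δ1 1, lt_min hδ1 one_pos, min_le_right _ _, min_le_left _ _⟩
  obtain ⟨R, hR1, hz⟩ := exists_z σ hv hpos hmax i0 hCh0 hδ0
  obtain ⟨Bc, hBc, hcrit⟩ := Pool.Agent.L7h9.LT.exists_bound σ W
  set C2 : ℝ := |Real.log ‖σ (W.coeff v)‖| + Ch with hC2
  have hC20 : 0 ≤ C2 := by positivity
  have hlogR : 0 ≤ Real.log R := Real.log_nonneg hR1
  set M : ℝ := k * (Real.log R + C2) + (δ0 + Ab * C2) / δ0 + (|Real.log Bc| + CF) + 1 with hM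
  have hM2 : 0 ≤ k * (Real.log R + C2) := by positivity
  have hM3 : 0 ≤ (δ0 + Ab * C2) / δ0 := by positivity
  have hM4 : 0 ≤ |Real.log Bc| + CF := by positivity
  refine ⟨Real.exp M + 1, by linarith [Real.exp_pos M], fun lam hlam => ?_⟩
  have hln : 0 < ‖σ lam‖ := by linarith [Real.exp_pos M]
  have hl0 : σ lam ≠ 0 := norm_pos_iff.1 hln
  set t : ℝ := Real.log ‖σ lam‖ with ht
  have htM : M ≤ t := by
    rw [ht, Real.le_log_iff_exp_le hln]
    linarith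
  have htpos : 0 < t := by linarith
  -- the root
  obtain ⟨κ0, hκ⟩ := IsAlgClosed.exists_pow_nat_eq (σ lam / σ (W.coeff v)) hk0
  have hκ0 : κ0 ≠ 0 := by
    rintro rfl
    rw [zero_pow hk0.ne'] at hκ
    exact (div_ne_zero hl0 hσv) hκ.symm
  have hlogκ : Real.log ‖κ0‖ = (t - Real.log ‖σ (W.coeff v)‖) / k := by
    have h1 : (k : ℝ) * Real.log ‖κ0‖ = t - Real.log ‖σ (W.coeff v)‖ := by
      rw [← Real.log_pow, ← norm_pow, hκ, norm_div, Real.log_div hln.ne'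
        (norm_ne_zero_iff.2 hσv)]
    rw [← h1]
    field_simp
  set Λ : (Fin (n + s) → ℝ) → ℂ := fun θ => κ0 * h (pul n s 1 θ) with hΛ
  have hpg : Good fun θ => h (pul n s 1 θ) := good_pul hh
  have hΛg : Good Λ := (good_const hκ0).mul hpg
  have hΛp : Per Λ := by
    intro θ j
    simp only [hΛ]
    rw [pul_per (F := h) hhp]
  have hΛlog : ∀ θ, |Real.log ‖Λ θ‖ - t / k| ≤ C2 := by
    intro θ
    have h1 : Real.log ‖Λ θ‖ = Real.log ‖κ0‖ + Real.log ‖h (pul n s 1 θ)‖ := by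
      simp only [hΛ]
      rw [norm_mul, Real.log_mul (norm_ne_zero_iff.2 hκ0) (norm_ne_zero_iff.2 (hh.ne_zero _))]
    rw [h1, hlogκ]
    have h2 : (t - Real.log ‖σ (W.coeff v)‖) / k + Real.log ‖h (pul n s 1 θ)‖ - t / k =
        -(Real.log ‖σ (W.coeff v)‖ / k) + Real.log ‖h (pul n s 1 θ)‖ := by ring
    rw [h2]
    refine (abs_add_le _ _).trans (add_le_add ?_ (hChl _))
    rw [abs_neg, abs_div, abs_of_pos hkR]
    have h3 : (1 : ℝ) ≤ k := by exact_mod_cast hk0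
    exact div_le_self (abs_nonneg _) h3
  have hΛR : ∀ θ, R ≤ ‖Λ θ‖ := by
    intro θ
    have h1 := (abs_le.1 (hΛlog θ)).1
    have h2 : Real.log R ≤ Real.log ‖Λ θ‖ := by
      have h3 : Real.log R + C2 ≤ t / k := by
        rw [le_div_iff₀ hkR]
        linarith
      linarith
    exact (Real.log_le_log_iff (by linarith) (norm_pos_iff.2 (hΛg.ne_zero θ))).1 h2
  have hlwΛ : ∀ j θ, lw Λ j θ = lw (fun θ => h (pul n s 1 θ)) j θ := by
    intro j θ
    have h1 := lw_mul (good_const (d := n + s) hκ0) hpg j θ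
    rw [lw_const, zero_add] at h1
    exact h1
  have hΛnat : ∀ l θ, lw Λ (Fin.natAdd n l) θ = 0 := fun l θ => by
    rw [hlwΛ, lw_pul_nat hh]
  have hΛB : ∀ j θ, ‖lw Λ j θ‖ ≤ Ch := by
    intro j θ
    refine Fin.addCases (fun i => ?_) (fun l => ?_) j
    · rw [hlwΛ, lw_pul_cast hh, Nat.cast_one, one_mul]
      exact hChw _ _
    · rw [hΛnat, norm_zero]
      exact hCh0
  have hpulk : ∀ θ : Fin (n + s) → ℝ, (k : ℝ) • pul n s 1 θ = pul n s k θ := by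
    intro θ
    funext i
    rw [Pi.smul_apply, pul_apply, pul_apply, smul_eq_mul, Nat.cast_one, one_mul]
  have hfe : ∀ θ, γ.e (pul n s k θ) (ι lam * (f : A)) = σ lam * γ.fn (f : A) (pul n s k θ) := by
    intro θ
    rw [map_mul, hγ]
    rfl
  have hΛk : ∀ θ, σ (W.coeff v) * Λ θ ^ k = γ.e (pul n s k θ) (ι lam * (f : A)) := by
    intro θ
    rw [hfe]
    simp only [hΛ]
    rw [mul_pow, hκ, hhk, hpulk]
    field_simp
  obtain ⟨Z, hZg, hZp, hZlog, hZlw, hZeq⟩ := hz (n + s) (Fin.natAdd n) Λ hΛg hΛp hΛR hΛB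
  have hcomp : ∀ θ, (γ.e θ).comp ι = σ := fun θ => RingHom.ext fun x => hγ θ x
  have hlv : ∀ θ, lval σ W (fun i => Z i θ) = γ.e (pul n s k θ) (ι lam * (f : A)) := fun θ =>
    (hZeq θ).trans (hΛk θ)
  have heq : ∀ θ, lev ((γ.e (pul n s k θ)).comp ι) (uval hZg θ) W =
      γ.e (pul n s k θ) (ι lam * (f : A)) := by
    intro θ
    rw [hcomp, lev_uval, hlv]
  refine ⟨Z, hZg, hZp, heq, fun θ => ?_, fun i θ => ?_, fun i l θ => ?_, fun i j θ => ?_⟩
  · refine hcrit _ (fun i => (hZg i).ne_zero θ) ?_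
    rw [hlv, hfe, norm_mul]
    have h1 : γ.fn (f : A) (pul n s k θ) ≠ 0 := hF.ne_zero _
    have h2 := (abs_le.1 (hCFl (pul n s k θ))).1
    have h3 : Real.log Bc ≤ Real.log (‖σ lam‖ * ‖γ.fn (f : A) (pul n s k θ)‖) := by
      rw [Real.log_mul hln.ne' (norm_ne_zero_iff.2 h1)]
      have h4 := le_abs_self (Real.log Bc)
      linarith
    exact (Real.log_le_log_iff hBc (mul_pos hln (norm_pos_iff.2 h1))).1 h3
  · refine le_trans ?_ hδ0le
    rw [hkzR]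
    have h1 := hZlog i θ
    have h2 := hΛlog θ
    have h3 : Real.log ‖Z i θ‖ / t - al i / k =
        ((Real.log ‖Z i θ‖ - al i * Real.log ‖Λ θ‖) +
          al i * (Real.log ‖Λ θ‖ - t / k)) / t := by
      field_simp
      ring
    rw [h3, abs_div, abs_of_pos htpos, div_le_iff₀ htpos]
    refine (abs_add_le _ _).trans ?_
    rw [abs_mul]
    have h4 : |(al i : ℝ)| * |Real.log ‖Λ θ‖ - t / k| ≤ Ab * C2 :=
      mul_le_mul (hAi i) h2 (abs_nonneg _) (by linarith)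
    have h5 : (δ0 + Ab * C2) / δ0 ≤ t := by linarith
    rw [div_le_iff₀ hδ0] at h5
    linarith
  · refine le_trans ?_ hδ0le
    have h1 := hZlw i (Fin.natAdd n l) θ
    rw [hΛnat, mul_zero, zero_add] at h1
    have h2 : ∑ l', (if (Fin.natAdd n l : Fin (n + s)) = Fin.natAdd n l' then
        (bdir v i0 l' i : ℂ) else 0) = (bdir v i0 l i : ℂ) := by
      rw [Finset.sum_eq_single l]
      · rw [if_pos rfl]
      · intro l' _ hl'
        rw [if_neg fun h => hl' (Fin.natAdd_injective _ _ h).symm]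
      · intro h
        exact absurd (Finset.mem_univ _) h
    rw [h2] at h1
    simpa using h1
  · have h1 := hZlw i (Fin.castAdd s j) θ
    have h2 : ∑ l', (if (Fin.castAdd s j : Fin (n + s)) = Fin.natAdd n l' then
        (bdir v i0 l' i : ℂ) else 0) = 0 :=
      Finset.sum_eq_zero fun l' _ => if_neg (cast_ne_nat j l')
    rw [h2, mul_zero, add_zero] at h1
    have h3 : ‖lw (Z i) (Fin.castAdd s j) θ‖ ≤
        ‖lw (Z i) (Fin.castAdd s j) θ - al i * lw Λ (Fin.castAdd s j) θ‖ +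
          ‖(al i : ℂ) * lw Λ (Fin.castAdd s j) θ‖ := by
      have e : lw (Z i) (Fin.castAdd s j) θ =
          (lw (Z i) (Fin.castAdd s j) θ - al i * lw Λ (Fin.castAdd s j) θ) +
            al i * lw Λ (Fin.castAdd s j) θ := by ring
      conv_lhs => rw [e]
      exact norm_add_le _ _
    rw [norm_mul, Complex.norm_intCast] at h3
    have h4 : |(al i : ℝ)| * ‖lw Λ (Fin.castAdd s j) θ‖ ≤ Ab * Ch :=
      mul_le_mul (hAi i) (hΛB _ _) (norm_nonneg _) (by linarith)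
    linarith

end Pool.Agent.L7h9.TS
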